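import Mathlib

set_option autoImplicit false

namespace Pool.Agent.Helper975.RDR

open Polynomial

section basic

variable {Ω Γ : Type*} [Field Ω] [LinearOrderedCommGroupWithZero Γ] (v : Valuation Ω Γ)

theorem v_nat_le (n : ℕ) : v (n : Ω) ≤ 1 := by
  induction n with
  | zero => simp
  | succ n ih =>
    push_cast
    exact v.map_add_le ih (by simp)

theorem v_int_le (n : ℤ) : v (n : Ω) ≤ 1 := by
  rcases n.natAbs_eq with h | h
  · rw [h]; simpa using v_nat_le v n.natAbs
  · rw [h]; simpa using v_nat_le v n.natAbs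

theorem v_nat_eq_one {p : ℕ} (hp : p.Prime) (hv : v (p : Ω) < 1) {n : ℕ} (h0 : 0 < n)
    (hn : n < p) : v (n : Ω) = 1 := by
  refine le_antisymm (v_nat_le v n) ?_
  by_contra hc
  push Not at hc
  have hcop : IsCoprime (n : ℤ) (p : ℤ) :=
    Nat.isCoprime_iff_coprime.2 (Nat.Coprime.symm ((Nat.Prime.coprime_iff_not_dvd hp).2
      (fun h => absurd (Nat.le_of_dvd h0 h) (by omega))))
  obtain ⟨a, b, hab⟩ := hcop
  have h1 : (1 : Ω) = (a : Ω) * (n : Ω) + (b : Ω) * (p : Ω) := by
    have := congrArg (Int.cast : ℤ → Ω) hab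
    push_cast at this
    exact this.symm
  have h2 : v (1 : Ω) < 1 := by
    rw [h1]
    apply v.map_add_lt
    · rw [map_mul]
      exact mul_lt_one_of_nonneg_of_lt_one_right (v_int_le v a) zero_le hc
    · rw [map_mul]
      exact mul_lt_one_of_nonneg_of_lt_one_right (v_int_le v b) zero_le hv
  rw [map_one] at h2
  exact lt_irrefl _ h2

/-- approximate additivity of the `p`-th power -/
theorem fr {p : ℕ} (hp : p.Prime) (x y : Ω) (M : Γ) (hx : v x ≤ M) (hy : v y ≤ M) :
    v ((x + y) ^ p - x ^ p - y ^ p) ≤ v (p : Ω) * M ^ p := by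
  rw [add_pow_prime_eq hp x y]
  have e : x ^ p + y ^ p + ↑p * x * y * ∑ k ∈ Finset.Ioo 0 p, x ^ (k - 1) * y ^ (p - k - 1) *
      ((p.choose k / p : ℕ) : Ω) - x ^ p - y ^ p = (p : Ω) * (x * y * ∑ k ∈ Finset.Ioo 0 p,
      x ^ (k - 1) * y ^ (p - k - 1) * ((p.choose k / p : ℕ) : Ω)) := by ring
  rw [e, map_mul, map_mul, map_mul]
  apply mul_le_mul_right
  have hS : v (∑ k ∈ Finset.Ioo 0 p, x ^ (k - 1) * y ^ (p - k - 1) *
      ((p.choose k / p : ℕ) : Ω)) ≤ M ^ (p - 2) := by
    apply v.map_sum_le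
    intro k hk
    rw [Finset.mem_Ioo] at hk
    rw [map_mul, map_mul, map_pow, map_pow]
    have e2 : p - 2 = (k - 1) + (p - k - 1) := by omega
    rw [e2, pow_add]
    calc v x ^ (k - 1) * v y ^ (p - k - 1) * v ((p.choose k / p : ℕ) : Ω)
        ≤ v x ^ (k - 1) * v y ^ (p - k - 1) * 1 := by
          apply mul_le_mul_right; exact v_nat_le v _
      _ ≤ M ^ (k - 1) * M ^ (p - k - 1) := by
          rw [mul_one]
          exact mul_le_mul' (pow_le_pow_left' hx _) (pow_le_pow_left' hy _)
  have e3 : M ^ p = M * M * M ^ (p - 2) := by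
    rw [← pow_two, ← pow_add]
    congr 1
    have := hp.two_le
    omega
  rw [e3]
  exact mul_le_mul' (mul_le_mul' hx hy) hS

/-- sums -/
theorem fr_sum {p : ℕ} (hp : p.Prime) {ι : Type*} (s : Finset ι) (f : ι → Ω) (M : Γ)
    (hf : ∀ i ∈ s, v (f i) ≤ M) :
    v ((∑ i ∈ s, f i) ^ p - ∑ i ∈ s, f i ^ p) ≤ v (p : Ω) * M ^ p := by
  classical
  induction s using Finset.induction_on with
  | empty => simp [hp.ne_zero]
  | insert a s ha ih =>
    rw [Finset.sum_insert ha, Finset.sum_insert ha]
    have h1 := fr v hp (f a) (∑ i ∈ s, f i) M (hf a (Finset.mem_insert_self _ _))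
      (v.map_sum_le (fun i hi => hf i (Finset.mem_insert_of_mem hi)))
    have h2 := ih (fun i hi => hf i (Finset.mem_insert_of_mem hi))
    have e : (f a + ∑ i ∈ s, f i) ^ p - (f a ^ p + ∑ i ∈ s, f i ^ p) =
        ((f a + ∑ i ∈ s, f i) ^ p - f a ^ p - (∑ i ∈ s, f i) ^ p) +
          ((∑ i ∈ s, f i) ^ p - ∑ i ∈ s, f i ^ p) := by ring
    rw [e]
    exact v.map_add_le h1 h2

theorem pow_lt_pow_iff' {x y : Γ} {n : ℕ} (hn : n ≠ 0) : x ^ n < y ^ n ↔ x < y :=
  pow_lt_pow_iff_left₀ zero_le zero_le hn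

/-- nearby elements have nearby `p`-th powers -/
theorem pow_close {p : ℕ} (hp : p.Prime) (hv : v (p : Ω) < 1) {x y : Ω} (h : v (x - y) < v y) :
    v (x ^ p - y ^ p) < v y ^ p := by
  have hy : 0 < v y := lt_of_le_of_lt zero_le h
  have h1 := fr v hp (x - y) y (v y) h.le le_rfl
  rw [sub_add_cancel] at h1
  have e : x ^ p - y ^ p = (x ^ p - (x - y) ^ p - y ^ p) + (x - y) ^ p := by ring
  rw [e]
  apply v.map_add_lt
  · refine lt_of_le_of_lt h1 ?_
    have : 0 < v y ^ p := pow_pos hy p
    calc v (p : Ω) * v y ^ p < 1 * v y ^ p := mul_lt_mul_of_pos_right hv this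
      _ = v y ^ p := one_mul _
  · rw [map_pow]
    exact (pow_lt_pow_iff' hp.ne_zero).2 h

/-- elements with nearby `p`-th powers are nearby -/
theorem root_close {p : ℕ} (hp : p.Prime) (hv : v (p : Ω) < 1) {x y : Ω}
    (h : v (x ^ p - y ^ p) < v y ^ p) : v (x - y) < v y := by
  have hy0 : 0 < v y ^ p := lt_of_le_of_lt zero_le h
  have hxy : v x ^ p = v y ^ p := by
    have := v.map_eq_of_sub_lt (x := y ^ p) (y := x ^ p) (by rwa [map_pow])
    rwa [map_pow, map_pow] at this
  have hxy' : v x = v y := (pow_left_inj₀ zero_le zero_le hp.ne_zero).1 hxy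
  have h1 := fr v hp (x - y) y (v y) (v.map_sub_le hxy'.le le_rfl) le_rfl
  rw [sub_add_cancel] at h1
  have e : (x - y) ^ p = (x ^ p - y ^ p) - (x ^ p - (x - y) ^ p - y ^ p) := by ring
  have h2 : v ((x - y) ^ p) < v y ^ p := by
    rw [e]
    apply v.map_sub_lt h
    refine lt_of_le_of_lt h1 ?_
    calc v (p : Ω) * v y ^ p < 1 * v y ^ p := mul_lt_mul_of_pos_right hv hy0
      _ = v y ^ p := one_mul _
  rw [map_pow] at h2
  exact (pow_lt_pow_iff' hp.ne_zero).1 h2

/-- coefficient bound for a product of linear factors -/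
theorem coeff_bound (r : Γ) (s : Multiset Ω) (i : ℕ) :
    v (((s.map (fun z => X - C z)).prod).coeff i) * r ^ i ≤ (s.map (fun z => max r (v z))).prod := by
  induction s using Multiset.induction_on generalizing i with
  | empty =>
    simp only [Multiset.map_zero, Multiset.prod_zero, coeff_one]
    split_ifs with h
    · rw [h]; simp
    · simp
  | cons z s ih =>
    simp only [Multiset.map_cons, Multiset.prod_cons]
    have key : ∀ i, v (z * ((s.map (fun z => X - C z)).prod).coeff i) * r ^ i ≤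
        max r (v z) * (s.map (fun z => max r (v z))).prod := by
      intro i
      rw [map_mul, mul_assoc]
      exact mul_le_mul' (le_max_right _ _) (ih i)
    rw [sub_mul]
    cases i with
    | zero =>
      have := key 0
      rw [coeff_sub, coeff_C_mul, mul_coeff_zero, coeff_X_zero, zero_mul, zero_sub,
        Valuation.map_neg]
      exact this
    | succ i =>
      rw [coeff_sub, coeff_X_mul, coeff_C_mul]
      have h1 : v (((s.map (fun z => X - C z)).prod).coeff i) * r ^ (i + 1) ≤
          max r (v z) * (s.map (fun z => max r (v z))).prod := by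
        rw [pow_succ, ← mul_assoc, mul_comm]
        exact mul_le_mul' (le_max_left _ _) (ih i)
      have h2 := key (i + 1)
      rcases le_total (v (((s.map (fun z => X - C z)).prod).coeff i))
        (v (z * ((s.map (fun z => X - C z)).prod).coeff (i + 1))) with h3 | h3
      · refine le_trans (mul_le_mul_left (v.map_sub_le h3 le_rfl) _) h2
      · refine le_trans (mul_le_mul_left (v.map_sub_le le_rfl h3) _) h1

end basic

end Pool.Agent.Helper975.RDR
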