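import Mathlib
import Pool.Agent.Helper975.RDR.Core1

set_option autoImplicit false

namespace Pool.Agent.Helper975.RDR

open Polynomial

variable {K Ω Γ : Type*} [Field K] [Field Ω] [Algebra K Ω] [IsAlgClosed Ω]
  [LinearOrderedCommGroupWithZero Γ] (v : Valuation Ω Γ)

/-- every element of degree `< p` over `L` is in `L` -/
def Small (p : ℕ) (L : IntermediateField K Ω) : Prop :=
  ∀ z : Ω, IsIntegral L z → (minpoly L z).natDegree < p → z ∈ L

/-- `a` is not a `p`-th power modulo `e^p` in `L` -/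
structure Bad (p : ℕ) (a e : Ω) (L : IntermediateField K Ω) : Prop where
  ha : a ∈ L
  ha1 : v a ≤ 1
  he : e ∈ L
  he0 : e ≠ 0
  he1 : v e < 1
  hp : v (p : Ω) ≤ v e ^ p
  bad : ∀ b ∈ L, v e ^ p < v (a - b ^ p)

theorem roots_mem {p : ℕ} {L : IntermediateField K Ω} (hL : Small p L) {g : L[X]} (hg : g ≠ 0)
    (hdeg : g.natDegree < p) : ∀ z ∈ g.aroots Ω, z ∈ L := by
  intro z hz
  rw [mem_aroots] at hz
  have hint : IsIntegral L z := (isAlgebraic_iff_isIntegral).1 ⟨g, hz.1, hz.2⟩
  refine hL z hint (lt_of_le_of_lt ?_ hdeg)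
  exact natDegree_le_of_dvd (minpoly.dvd L z hz.2) hg

theorem aeval_prod {L : IntermediateField K Ω} (g : L[X]) (x : Ω) :
    aeval x g = (g.leadingCoeff : Ω) * ((g.aroots Ω).map (x - ·)).prod :=
  Splits.aeval_eq_prod_aroots (IsAlgClosed.splits _) x

theorem multiset_prod_le {ι : Type*} (s : Multiset ι) (f g : ι → Γ) (h : ∀ i ∈ s, f i ≤ g i) :
    (s.map f).prod ≤ (s.map g).prod := by
  induction s using Multiset.induction_on with
  | empty => simp
  | cons a s ih =>
    simp only [Multiset.map_cons, Multiset.prod_cons]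
    exact mul_le_mul' (h a (Multiset.mem_cons_self _ _))
      (ih (fun i hi => h i (Multiset.mem_cons_of_mem hi)))

/-- valuation independence of the powers of `θ` -/
theorem val_indep {p : ℕ} {L : IntermediateField K Ω} (hL : Small p L) {θ : Ω}
    (hW : ∀ b ∈ L, v θ ≤ v (θ - b)) {g : L[X]} (hdeg : g.natDegree < p) (i : ℕ) :
    v (g.coeff i : Ω) * v θ ^ i ≤ v (aeval θ g) := by
  by_cases hg : g = 0
  · rw [hg]; simp
  have hr := roots_mem hL hg hdeg
  have e1 : (g.coeff i : Ω) = (g.leadingCoeff : Ω) *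
      (((g.aroots Ω).map (fun z => X - C z)).prod).coeff i := by
    have h1 : g.map (algebraMap L Ω) = C ((g.map (algebraMap L Ω)).leadingCoeff) *
        (((g.map (algebraMap L Ω)).roots).map (X - C ·)).prod :=
      (IsAlgClosed.splits (g.map (algebraMap L Ω))).eq_prod_roots
    have h2 : (g.map (algebraMap L Ω)).coeff i = (g.coeff i : Ω) := by
      rw [coeff_map]; rfl
    rw [← h2, h1, coeff_C_mul]
    congr 1
    rw [leadingCoeff_map]; rfl
  rw [e1, aeval_prod, map_mul, map_mul, mul_assoc]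
  apply mul_le_mul_right
  refine le_trans (coeff_bound v (v θ) (g.aroots Ω) i) ?_
  have e2 : v (((g.aroots Ω).map (θ - ·)).prod) = ((g.aroots Ω).map (fun z => v (θ - z))).prod := by
    rw [map_multiset_prod, Multiset.map_map]; rfl
  rw [e2]
  apply multiset_prod_le
  intro z hz
  have h3 := hW z (hr z hz)
  apply max_le h3
  by_contra hc
  push Not at hc
  have h4 : v θ < v z := lt_of_le_of_lt h3 hc
  rw [v.map_sub_eq_of_lt_right h4] at hc
  exact lt_irrefl _ hc

/-- every element of `L(θ)` is a polynomial in `θ` of degree `< p`, if `θ` is a root of a monic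
polynomial of degree `p` -/
theorem exists_poly {p : ℕ} (hp : 0 < p) {L : IntermediateField K Ω} {θ : Ω} {F : L[X]}
    (hF : F.Monic) (hFd : F.natDegree = p) (hFθ : aeval θ F = 0) {b : Ω}
    (hb : b ∈ IntermediateField.adjoin L {θ}) : ∃ g : L[X], g.natDegree < p ∧ aeval θ g = b := by
  have hint : IsIntegral L θ := ⟨F, hF, by rwa [aeval_def] at hFθ⟩
  have hb' : b ∈ Algebra.adjoin L {θ} := by
    rw [← IntermediateField.adjoin_simple_toSubalgebra_of_isAlgebraic hint.isAlgebraic]
    exact hb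
  rw [Algebra.adjoin_singleton_eq_range_aeval] at hb'
  obtain ⟨g, hg⟩ := hb'
  refine ⟨g %ₘ F, ?_, ?_⟩
  · have := natDegree_modByMonic_lt g hF (by
      intro h1
      rw [h1, natDegree_one] at hFd
      omega)
    omega
  · rw [← hg]
    have h1 := modByMonic_add_div g F
    have h2 := congrArg (aeval θ) h1
    rw [map_add, map_mul, hFθ, zero_mul, add_zero] at h2
    exact h2

/-- Lemma J -/
theorem lemma_J {p : ℕ} (hp : p.Prime) (hv : v (p : Ω) < 1) {L : IntermediateField K Ω}
    (hL : Small p L) {c : Ω} (hc : c ∈ L) (hc0 : c ≠ 0) (hJ : ∀ b ∈ L, v c ≤ v (c - b ^ p))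
    {θ : Ω} (hθ : v (θ ^ p - c) < v c) {F : L[X]} (hF : F.Monic) (hFd : F.natDegree = p)
    (hFθ : aeval θ F = 0) {d : Ω} (hd : d ∈ L) (hd0 : d ≠ 0) {b : Ω}
    (hb : b ∈ IntermediateField.adjoin L {θ}) : v (d * θ) ≤ v (d * θ - b ^ p) := by
  have hvc : 0 < v c := (v.pos_iff).2 hc0
  have hθc : v θ ^ p = v c := by
    have := v.map_eq_of_sub_lt hθ
    rwa [map_pow] at this
  have hθ0 : 0 < v θ := by
    by_contra h0
    have : v θ = 0 := le_antisymm (not_lt.1 h0) zero_le
    rw [this, zero_pow hp.ne_zero] at hθc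
    exact hvc.ne hθc
  -- (W)
  have hW : ∀ b ∈ L, v θ ≤ v (θ - b) := by
    intro b hb
    by_contra hcon
    push Not at hcon
    rw [v.map_sub_swap] at hcon
    have h1 := pow_close v hp hv hcon
    rw [hθc] at h1
    have h2 : v (c - b ^ p) < v c := by
      have e : c - b ^ p = -(θ ^ p - c) - (b ^ p - θ ^ p) := by ring
      rw [e]
      apply v.map_sub_lt _ h1
      rwa [Valuation.map_neg]
    exact absurd (hJ b hb) (not_le.2 h2)
  by_contra hcon
  push Not at hcon
  obtain ⟨g, hgd, hg⟩ := exists_poly hp.pos hF hFd hFθ hb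
  have hV := fun i => val_indep v hL hW hgd i
  rw [hg] at hV
  -- `b^p` is close to `d θ`
  have hvb : v b ^ p = v (d * θ) := by
    have h1 : v (b ^ p - d * θ) < v (d * θ) := by rwa [v.map_sub_swap] at hcon
    have := v.map_eq_of_sub_lt h1
    rwa [map_pow] at this
  have hdθ : 0 < v (d * θ) := by
    rw [map_mul]; exact mul_pos ((v.pos_iff).2 hd0) hθ0
  -- expand `b`
  have hbs : b = ∑ i ∈ Finset.range p, (g.coeff i : Ω) * θ ^ i := by
    rw [← hg, aeval_eq_sum_range' hgd]
    apply Finset.sum_congr rfl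
    intro i _
    rw [Algebra.smul_def]; rfl
  set w : Ω := ∑ i ∈ Finset.range p, (g.coeff i : Ω) ^ p * c ^ i with hw
  have hwL : w ∈ L := by
    rw [hw]
    apply sum_mem
    intro i _
    exact mul_mem (pow_mem (g.coeff i).2 p) (pow_mem hc i)
  have h1 : v (b ^ p - ∑ i ∈ Finset.range p, ((g.coeff i : Ω) * θ ^ i) ^ p) < v b ^ p := by
    have := fr_sum v hp (Finset.range p) (fun i => (g.coeff i : Ω) * θ ^ i) (v b) (by
      intro i _
      rw [map_mul, map_pow]; exact hV i)
    rw [← hbs] at this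
    refine lt_of_le_of_lt this ?_
    have h0 : 0 < v b ^ p := by rw [hvb]; exact hdθ
    calc v (p : Ω) * v b ^ p < 1 * v b ^ p := mul_lt_mul_of_pos_right hv h0
      _ = v b ^ p := one_mul _
  have h2 : v (∑ i ∈ Finset.range p, ((g.coeff i : Ω) * θ ^ i) ^ p - w) < v b ^ p := by
    rw [hw, ← Finset.sum_sub_distrib]
    apply v.map_sum_lt (by rw [hvb]; exact hdθ.ne')
    intro i _
    -- `θ^(i p)` is close to `c^i`
    have e : ((g.coeff i : Ω) * θ ^ i) ^ p - (g.coeff i : Ω) ^ p * c ^ i =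
        (g.coeff i : Ω) ^ p * ((θ ^ p) ^ i - c ^ i) := by ring
    rw [e, map_mul, map_pow]
    by_cases hci : v (g.coeff i : Ω) = 0
    · rw [hci, zero_pow hp.ne_zero, zero_mul, hvb]; exact hdθ
    have h3 : v ((θ ^ p) ^ i - c ^ i) < v c ^ i := by
      -- geometric sum
      have e1 : (θ ^ p) ^ i - c ^ i = (∑ j ∈ Finset.range i, (θ ^ p) ^ j * c ^ (i - 1 - j)) *
          (θ ^ p - c) := (Commute.geom_sum₂_mul (Commute.all _ _) i).symm
      rcases Nat.eq_zero_or_pos i with h0 | h0
      · rw [h0]; simp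
      rw [e1, map_mul]
      have h4 : v (∑ j ∈ Finset.range i, (θ ^ p) ^ j * c ^ (i - 1 - j)) ≤ v c ^ (i - 1) := by
        apply v.map_sum_le
        intro j hj
        rw [Finset.mem_range] at hj
        rw [map_mul, map_pow, map_pow, map_pow, hθc, ← pow_add]
        apply le_of_eq
        congr 1
        omega
      calc v (∑ j ∈ Finset.range i, (θ ^ p) ^ j * c ^ (i - 1 - j)) * v (θ ^ p - c)
          ≤ v c ^ (i - 1) * v (θ ^ p - c) := mul_le_mul_left h4 _
        _ < v c ^ (i - 1) * v c := mul_lt_mul_of_pos_left hθ (pow_pos hvc _)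
        _ = v c ^ i := by rw [← pow_succ]; congr 1; omega
    calc v (g.coeff i : Ω) ^ p * v ((θ ^ p) ^ i - c ^ i)
        < v (g.coeff i : Ω) ^ p * v c ^ i :=
          mul_lt_mul_of_pos_left h3 (pow_pos (lt_of_le_of_ne zero_le (Ne.symm hci)) p)
      _ = (v (g.coeff i : Ω) * v θ ^ i) ^ p := by
          rw [← hθc, mul_pow, ← pow_mul, ← pow_mul, mul_comm p i]
      _ ≤ v b ^ p := pow_le_pow_left' (hV i) p
  have h3 : v (d * θ - w) < v (d * θ) := by
    have e : d * θ - w = (d * θ - b ^ p) + ((b ^ p - ∑ i ∈ Finset.range p,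
        ((g.coeff i : Ω) * θ ^ i) ^ p) + (∑ i ∈ Finset.range p, ((g.coeff i : Ω) * θ ^ i) ^ p - w)) := by
      ring
    rw [e]
    apply v.map_add_lt hcon
    rw [← hvb]
    exact v.map_add_lt h1 h2
  have h4 : v (θ - w / d) < v θ := by
    have e : d * θ - w = d * (θ - w / d) := by field_simp
    rw [e, map_mul, map_mul] at h3
    exact lt_of_mul_lt_mul_left h3 zero_le
  exact absurd (hW (w / d) (L.div_mem hwL hd)) (not_le.2 h4)

end Pool.Agent.Helper975.RDR
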