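import Mathlib
import Pool.Agent.Helper975.RDR.Core2

set_option autoImplicit false

namespace Pool.Agent.Helper975.RDR

open Polynomial

section
variable {Ω Γ : Type*} [Field Ω] [LinearOrderedCommGroupWithZero Γ] (v : Valuation Ω Γ)

theorem ms_sum_le (s : Multiset Ω) (M : Γ) (h : ∀ z ∈ s, v z ≤ M) : v s.sum ≤ M := by
  induction s using Multiset.induction_on with
  | empty => simp
  | cons a s ih =>
    rw [Multiset.sum_cons]
    exact v.map_add_le (h a (Multiset.mem_cons_self _ _))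
      (ih (fun z hz => h z (Multiset.mem_cons_of_mem hz)))

theorem fr_multiset {p : ℕ} (hp : p.Prime) (s : Multiset Ω) (M : Γ) (h : ∀ z ∈ s, v z ≤ M) :
    v (s.sum ^ p - (s.map (· ^ p)).sum) ≤ v (p : Ω) * M ^ p := by
  induction s using Multiset.induction_on with
  | empty => simp [hp.ne_zero]
  | cons a s ih =>
    rw [Multiset.sum_cons, Multiset.map_cons, Multiset.sum_cons]
    have h1 := fr v hp a s.sum M (h a (Multiset.mem_cons_self _ _))
      (ms_sum_le v s M (fun z hz => h z (Multiset.mem_cons_of_mem hz)))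
    have h2 := ih (fun z hz => h z (Multiset.mem_cons_of_mem hz))
    have e : (a + s.sum) ^ p - (a ^ p + (s.map (· ^ p)).sum) =
        ((a + s.sum) ^ p - a ^ p - s.sum ^ p) + (s.sum ^ p - (s.map (· ^ p)).sum) := by ring
    rw [e]
    exact v.map_add_le h1 h2

theorem ms_sum_pow (p : ℕ) (s : Multiset Ω) (a : Ω) (δ : Γ) (h : ∀ z ∈ s, v (a - z ^ p) ≤ δ) :
    v ((s.map (· ^ p)).sum - (s.card : Ω) * a) ≤ δ := by
  induction s using Multiset.induction_on with
  | empty => simp
  | cons z s ih =>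
    rw [Multiset.map_cons, Multiset.sum_cons, Multiset.card_cons]
    have h1 := h z (Multiset.mem_cons_self _ _)
    have h2 := ih (fun z hz => h z (Multiset.mem_cons_of_mem hz))
    have e : z ^ p + (s.map (· ^ p)).sum - ((s.card + 1 : ℕ) : Ω) * a =
        -(a - z ^ p) + ((s.map (· ^ p)).sum - (s.card : Ω) * a) := by push_cast; ring
    rw [e]
    apply v.map_add_le _ h2
    rwa [Valuation.map_neg]

theorem fermat_val {p : ℕ} (hp : p.Prime) (m : ℕ) : v ((m : Ω) ^ p - m) ≤ v (p : Ω) := by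
  have h1 : (p : ℤ) ∣ (m : ℤ) ^ p - m := by
    have := Fact.mk hp
    rw [← ZMod.intCast_zmod_eq_zero_iff_dvd ((m : ℤ) ^ p - m) p]
    push_cast
    rw [ZMod.pow_card, sub_self]
  obtain ⟨c, hc⟩ := h1
  have h2 : ((m : Ω) ^ p - m) = (p : Ω) * (c : Ω) := by
    have := congrArg (Int.cast : ℤ → Ω) hc
    push_cast at this
    exact this
  rw [h2, map_mul]
  exact mul_le_of_le_one_right zero_le (v_int_le v c)

end

variable {K Ω Γ : Type*} [Field K] [Field Ω] [Algebra K Ω] [IsAlgClosed Ω]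
  [Algebra.IsAlgebraic K Ω] [LinearOrderedCommGroupWithZero Γ] (v : Valuation Ω Γ)

omit [LinearOrderedCommGroupWithZero Γ] in
theorem exists_conj (L : IntermediateField K Ω) {z z' : Ω} (hz' : z' ∈ (minpoly L z).aroots Ω) :
    ∃ σ : Ω ≃ₐ[L] Ω, σ z = z' := by
  have hint : IsIntegral L z := Algebra.IsIntegral.isIntegral z
  rw [mem_aroots] at hz'
  have h1 : minpoly L z = minpoly L z' :=
    minpoly.eq_of_irreducible_of_monic (minpoly.irreducible hint) hz'.2 (minpoly.monic hint)
  have : Algebra.IsAlgebraic L Ω := Algebra.IsAlgebraic.tower_top (K := K) L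
  have : IsAlgClosure L Ω := ⟨inferInstance, this⟩
  have : Normal L Ω := IsAlgClosure.normal L Ω
  have h2 : IsConjRoot L z' z := by
    rw [isConjRoot_def]; exact h1.symm
  exact h2.exists_algEquiv

theorem conj_val (hv : ∀ (σ : Ω ≃ₐ[K] Ω) (x : Ω), v (σ x) = v x) (L : IntermediateField K Ω)
    (σ : Ω ≃ₐ[L] Ω) (x : Ω) : v (σ x) = v x :=
  hv (σ.restrictScalars K) x

theorem Bad.small (hv : ∀ (σ : Ω ≃ₐ[K] Ω) (x : Ω), v (σ x) = v x) {p : ℕ} (hp : p.Prime)
    {a e : Ω} {L : IntermediateField K Ω} (hB : Bad v p a e L) {z : Ω}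
    (hz : (minpoly L z).natDegree < p) : v e ^ p < v (a - z ^ p) := by
  by_contra hcon
  push Not at hcon
  have hint : IsIntegral L z := Algebra.IsIntegral.isIntegral z
  have hve1 : v e ^ p ≤ 1 := pow_le_one' hB.he1.le p
  have hvp : v (p : Ω) < 1 := by
    refine lt_of_le_of_lt hB.hp ?_
    exact pow_lt_one' hB.he1 hp.ne_zero
  set R := (minpoly L z).aroots Ω with hR
  set m := (minpoly L z).natDegree with hm
  have hm0 : 0 < m := minpoly.natDegree_pos hint
  have hvm : v (m : Ω) = 1 := v_nat_eq_one v hp hvp hm0 hz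
  have hcard : R.card = m := by
    rw [hR, hm, aroots_def, ← natDegree_map (algebraMap L Ω)]
    exact ((IsAlgClosed.splits ((minpoly L z).map (algebraMap L Ω))).natDegree_eq_card_roots).symm
  have hR1 : ∀ z' ∈ R, v (a - z' ^ p) ≤ v e ^ p := by
    intro z' hz'
    obtain ⟨σ, hσ⟩ := exists_conj L hz'
    have h1 := conj_val v hv L σ (a - z ^ p)
    rw [map_sub, map_pow, hσ] at h1
    have h2 : σ a = a := σ.commutes ⟨a, hB.ha⟩
    rw [h2] at h1
    rw [h1]; exact hcon
  have hR2 : ∀ z' ∈ R, v z' ≤ 1 := by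
    intro z' hz'
    have h1 : v (z' ^ p) ≤ 1 := by
      have e1 : z' ^ p = a - (a - z' ^ p) := by ring
      rw [e1]
      exact v.map_sub_le hB.ha1 ((hR1 z' hz').trans hve1)
    rw [map_pow] at h1
    exact (pow_le_one_iff hp.ne_zero).1 h1
  have hsL : R.sum ∈ L := by
    have h1 := (IsAlgClosed.splits ((minpoly L z).map (algebraMap L Ω))).nextCoeff_eq_neg_sum_roots_of_monic
      ((minpoly.monic hint).map _)
    rw [nextCoeff_map_eq] at h1
    have h2 : R.sum = - algebraMap L Ω (minpoly L z).nextCoeff := by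
      rw [h1, neg_neg, hR, aroots_def]
    rw [h2]
    exact neg_mem (minpoly L z).nextCoeff.2
  have hs1 : v R.sum ≤ 1 := ms_sum_le v R 1 hR2
  have k1 : v (R.sum ^ p - (R.map (· ^ p)).sum) ≤ v e ^ p := by
    refine (fr_multiset v hp R 1 hR2).trans ?_
    rw [one_pow, mul_one]; exact hB.hp
  have k2 : v ((R.map (· ^ p)).sum - (m : Ω) * a) ≤ v e ^ p := by
    have := ms_sum_pow v p R a (v e ^ p) hR1
    rwa [hcard] at this
  have k3 : v (R.sum ^ p - (m : Ω) * a) ≤ v e ^ p := by
    have e1 : R.sum ^ p - (m : Ω) * a = (R.sum ^ p - (R.map (· ^ p)).sum) +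
        ((R.map (· ^ p)).sum - (m : Ω) * a) := by ring
    rw [e1]; exact v.map_add_le k1 k2
  have hm0' : (m : Ω) ≠ 0 := by
    intro h0
    rw [h0, map_zero] at hvm
    exact zero_ne_one hvm
  set b := R.sum / m with hb
  have hbL : b ∈ L := L.div_mem hsL (natCast_mem L m)
  have hb1 : v b ≤ 1 := by
    rw [hb, map_div₀, hvm, div_one]; exact hs1
  have e2 : R.sum = m * b := by rw [hb]; field_simp
  have k4 : v ((m : Ω) * (b ^ p - a)) ≤ v e ^ p := by
    have e3 : (m : Ω) * (b ^ p - a) = (R.sum ^ p - (m : Ω) * a) - ((m : Ω) ^ p - m) * b ^ p := by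
      rw [e2]; ring
    rw [e3]
    apply v.map_sub_le k3
    rw [map_mul, map_pow]
    refine le_trans (mul_le_of_le_one_right zero_le (pow_le_one' hb1 p)) ?_
    exact (fermat_val v hp m).trans hB.hp
  rw [map_mul, hvm, one_mul, v.map_sub_swap] at k4
  exact absurd (hB.bad b hbL) (not_lt.2 k4)

/-- enlarge the field by one element -/
noncomputable def ext1 (L : IntermediateField K Ω) (z : Ω) : IntermediateField K Ω :=
  (IntermediateField.adjoin L {z}).restrictScalars K

omit [IsAlgClosed Ω] [Algebra.IsAlgebraic K Ω] in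
theorem mem_ext1 (L : IntermediateField K Ω) (z b : Ω) :
    b ∈ ext1 L z ↔ b ∈ IntermediateField.adjoin L {z} := Iff.rfl

omit [IsAlgClosed Ω] [Algebra.IsAlgebraic K Ω] in
theorem le_ext1 (L : IntermediateField K Ω) (z : Ω) : L ≤ ext1 L z := by
  intro x hx
  rw [mem_ext1]
  exact (IntermediateField.adjoin L {z}).algebraMap_mem ⟨x, hx⟩

omit [IsAlgClosed Ω] [Algebra.IsAlgebraic K Ω] in
theorem self_mem_ext1 (L : IntermediateField K Ω) (z : Ω) : z ∈ ext1 L z := by
  rw [mem_ext1]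
  exact IntermediateField.mem_adjoin_simple_self L z

omit [IsAlgClosed Ω] in
theorem degree_ext1 (L : IntermediateField K Ω) (z b : Ω) (hb : b ∈ ext1 L z) :
    (minpoly L b).natDegree ≤ (minpoly L z).natDegree := by
  have hint : IsIntegral L z := Algebra.IsIntegral.isIntegral z
  rw [mem_ext1] at hb
  have := IntermediateField.adjoin.finiteDimensional hint
  have h1 : minpoly L b = minpoly L (⟨b, hb⟩ : IntermediateField.adjoin L {z}) :=
    (IntermediateField.minpoly_eq (⟨b, hb⟩ : IntermediateField.adjoin L {z})).symm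
  rw [h1, ← IntermediateField.adjoin.finrank hint]
  exact minpoly.natDegree_le _

/-- Zorn -/
theorem exists_maximal_bad (hv : ∀ (σ : Ω ≃ₐ[K] Ω) (x : Ω), v (σ x) = v x) {p : ℕ} (hp : p.Prime)
    {a e : Ω} {L0 : IntermediateField K Ω} (hB0 : Bad v p a e L0) :
    ∃ L : IntermediateField K Ω, L0 ≤ L ∧ Bad v p a e L ∧ Small p L ∧
      ∀ b ∈ L, ∃ b' ∈ L, v (a - b' ^ p) < v (a - b ^ p) := by
  have hZ := zorn_le_nonempty₀ {L : IntermediateField K Ω | Bad v p a e L} (by
    intro c hc hchain y hy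
    have : Nonempty c := ⟨⟨y, hy⟩⟩
    have hdir : Directed (· ≤ ·) (fun L : c => (L : IntermediateField K Ω)) := hchain.directed
    have hmem : ∀ x, x ∈ (⨆ L : c, (L : IntermediateField K Ω)) ↔
        ∃ L : c, x ∈ (L : IntermediateField K Ω) := by
      intro x
      rw [← SetLike.mem_coe, IntermediateField.coe_iSup_of_directed hdir, Set.mem_iUnion]
      rfl
    have hyB : Bad v p a e y := hc hy
    refine ⟨⨆ L : c, (L : IntermediateField K Ω), ?_, fun z hz => le_iSup
      (fun L : c => (L : IntermediateField K Ω)) ⟨z, hz⟩⟩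
    refine ⟨(hmem a).2 ⟨⟨y, hy⟩, hyB.ha⟩, hyB.ha1, (hmem e).2 ⟨⟨y, hy⟩, hyB.he⟩, hyB.he0, hyB.he1,
      hyB.hp, ?_⟩
    intro b hb
    obtain ⟨L, hL⟩ := (hmem b).1 hb
    exact (hc L.2).bad b hL) L0 hB0
  obtain ⟨L, hL0, hLmax⟩ := hZ
  have hB : Bad v p a e L := hLmax.prop
  have hSmall : Small p L := by
    intro z _ hz
    have hBM : Bad v p a e (ext1 L z) := by
      refine ⟨le_ext1 L z hB.ha, hB.ha1, le_ext1 L z hB.he, hB.he0, hB.he1, hB.hp, ?_⟩
      intro b hb
      exact hB.small v hv hp (lt_of_le_of_lt (degree_ext1 L z b hb) hz)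
    exact hLmax.le_of_ge hBM (le_ext1 L z) (self_mem_ext1 L z)
  refine ⟨L, hL0, hB, hSmall, ?_⟩
  by_contra hcon
  push Not at hcon
  obtain ⟨b0, hb0, hmax⟩ := hcon
  have hvp : v (p : Ω) < 1 := lt_of_le_of_lt hB.hp (pow_lt_one' hB.he1 hp.ne_zero)
  have hve : 0 < v e := (v.pos_iff).2 hB.he0
  set c := a - b0 ^ p with hc
  have hcL : c ∈ L := L.sub_mem hB.ha (pow_mem hb0 p)
  have hcbig : v e ^ p < v c := hB.bad b0 hb0
  have hvc : 0 < v c := lt_of_le_of_lt zero_le hcbig
  have hc0 : c ≠ 0 := (v.pos_iff).1 hvc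
  have hc1 : v c ≤ 1 := by
    have := hmax 0 L.zero_mem
    rw [zero_pow hp.ne_zero, sub_zero] at this
    exact this.trans hB.ha1
  have hpc : v (p : Ω) < v c := lt_of_le_of_lt hB.hp hcbig
  have hb01 : v b0 ≤ 1 := by
    have h1 : v (b0 ^ p) ≤ 1 := by
      have e1 : b0 ^ p = a - c := by rw [hc]; ring
      rw [e1]; exact v.map_sub_le hB.ha1 hc1
    rw [map_pow] at h1
    exact (pow_le_one_iff hp.ne_zero).1 h1
  have hJ : ∀ b ∈ L, v c ≤ v (c - b ^ p) := by
    intro b hb
    by_contra hlt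
    push Not at hlt
    have hb1 : v b ≤ 1 := by
      have h1 : v (b ^ p) ≤ 1 := by
        have e1 : b ^ p = c - (c - b ^ p) := by ring
        rw [e1]; exact v.map_sub_le hc1 (hlt.le.trans hc1)
      rw [map_pow] at h1
      exact (pow_le_one_iff hp.ne_zero).1 h1
    have h2 := fr v hp b0 b 1 hb01 hb1
    rw [one_pow, mul_one] at h2
    have h3 : v (a - (b0 + b) ^ p) < v c := by
      have e1 : a - (b0 + b) ^ p = (c - b ^ p) - ((b0 + b) ^ p - b0 ^ p - b ^ p) := by
        rw [hc]; ring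
      rw [e1]
      exact v.map_sub_lt hlt (lt_of_le_of_lt h2 hpc)
    exact absurd (hmax (b0 + b) (L.add_mem hb0 hb)) (not_le.2 h3)
  -- the polynomial
  set e' : L := ⟨e, hB.he⟩ with he'
  set c' : L := ⟨c, hcL⟩ with hc'
  let F : L[X] := X ^ p + (-(C (e' ^ (p - 1)) * X) - C c')
  have hdegq : (-(C (e' ^ (p - 1)) * X) - C c' : L[X]).degree < p := by
    have h1 : (-(C (e' ^ (p - 1)) * X) - C c' : L[X]).degree ≤ 1 := by
      refine (degree_sub_le _ _).trans (max_le ?_ (degree_C_le.trans (by norm_num)))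
      rw [degree_neg]
      exact degree_C_mul_X_le _
    refine lt_of_le_of_lt h1 ?_
    exact_mod_cast hp.one_lt
  have hF : F.Monic := monic_X_pow_add hdegq
  have hFd : F.natDegree = p := by
    have : F.degree = p := by
      rw [show F = X ^ p + (-(C (e' ^ (p - 1)) * X) - C c') from rfl,
        degree_add_eq_left_of_degree_lt]
      · exact degree_X_pow p
      · rw [degree_X_pow]; exact hdegq
    exact natDegree_eq_of_degree_eq_some this
  obtain ⟨θ, hθr⟩ := IsAlgClosed.exists_aeval_eq_zero Ω F (by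
    rw [degree_eq_natDegree hF.ne_zero, hFd]
    exact_mod_cast hp.ne_zero)
  have hθ : θ ^ p - c = e ^ (p - 1) * θ := by
    have h1 : aeval θ F = θ ^ p + (-(e ^ (p - 1) * θ) - c) := by
      simp only [F, map_add, map_sub, map_neg, map_mul, map_pow, aeval_X, aeval_C]
      rfl
    rw [h1] at hθr
    linear_combination hθr
  have hθlt : v (θ ^ p - c) < v c := by
    by_contra hge
    push Not at hge
    rw [hθ, map_mul, map_pow] at hge
    have h1 : v θ ^ p ≤ v e ^ (p - 1) * v θ := by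
      rw [← map_pow]
      have e1 : θ ^ p = e ^ (p - 1) * θ + c := by linear_combination hθ
      rw [e1]
      apply v.map_add_le _ hge
      rw [map_mul, map_pow]
    have hθ0 : 0 < v θ := by
      by_contra h0
      have : v θ = 0 := le_antisymm (not_lt.1 h0) zero_le
      rw [this, mul_zero] at hge
      exact absurd hvc (not_lt.2 hge)
    have h2 : v θ ^ (p - 1) ≤ v e ^ (p - 1) := by
      have e2 : v θ ^ p = v θ ^ (p - 1) * v θ := by
        rw [← pow_succ]; congr 1; have := hp.pos; omega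
      rw [e2] at h1
      exact le_of_mul_le_mul_right h1 hθ0
    have h3 : v θ ≤ v e := by
      have hp1 : p - 1 ≠ 0 := by have := hp.one_lt; omega
      exact (pow_le_pow_iff_left₀ zero_le zero_le hp1).1 h2
    have h4 : v c ≤ v e ^ p := by
      calc v c ≤ v e ^ (p - 1) * v θ := hge
        _ ≤ v e ^ (p - 1) * v e := mul_le_mul_right h3 _
        _ = v e ^ p := by rw [← pow_succ]; congr 1; have := hp.pos; omega
    exact absurd hcbig (not_lt.2 h4)
  have hθc : v θ ^ p = v c := by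
    have := v.map_eq_of_sub_lt hθlt
    rwa [map_pow] at this
  have heθ : v e < v θ := by
    rw [← hθc] at hcbig
    exact (pow_lt_pow_iff' hp.ne_zero).1 hcbig
  have hθ1 : v θ ≤ 1 := by
    rw [← hθc] at hc1
    exact (pow_le_one_iff hp.ne_zero).1 hc1
  set d : Ω := -e ^ (p - 1) with hd
  have hdL : d ∈ L := neg_mem (pow_mem hB.he _)
  have hd0 : d ≠ 0 := neg_ne_zero.2 (pow_ne_zero _ hB.he0)
  have hdθ : v e ^ p < v (d * θ) := by
    rw [hd, neg_mul, Valuation.map_neg, map_mul, map_pow]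
    calc v e ^ p = v e ^ (p - 1) * v e := by rw [← pow_succ]; congr 1; have := hp.pos; omega
      _ < v e ^ (p - 1) * v θ := mul_lt_mul_of_pos_left heθ (pow_pos hve _)
  have hBM : Bad v p a e (ext1 L θ) := by
    refine ⟨le_ext1 L θ hB.ha, hB.ha1, le_ext1 L θ hB.he, hB.he0, hB.he1, hB.hp, ?_⟩
    intro b hb
    by_contra hlt
    push Not at hlt
    have hve1 : v e ^ p ≤ 1 := pow_le_one' hB.he1.le p
    have hb1 : v b ≤ 1 := by
      have h1 : v (b ^ p) ≤ 1 := by
        have e1 : b ^ p = a - (a - b ^ p) := by ring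
        rw [e1]; exact v.map_sub_le hB.ha1 (hlt.trans hve1)
      rw [map_pow] at h1
      exact (pow_le_one_iff hp.ne_zero).1 h1
    have hβ1 : v (b0 + θ) ≤ 1 := v.map_add_le hb01 hθ1
    have hb'1 : v (b - (b0 + θ)) ≤ 1 := v.map_sub_le hb1 hβ1
    have hb'M : b - (b0 + θ) ∈ ext1 L θ :=
      sub_mem hb (add_mem (le_ext1 L θ hb0) (self_mem_ext1 L θ))
    have hJ' := lemma_J v hp hvp hSmall hcL hc0 hJ hθlt hF hFd hθr hdL hd0 hb'M
    have f1 := fr v hp b0 θ 1 hb01 hθ1
    have f2 := fr v hp (b0 + θ) (b - (b0 + θ)) 1 hβ1 hb'1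
    rw [one_pow, mul_one] at f1 f2
    rw [add_sub_cancel] at f2
    have f3 : v (d * θ - (b - (b0 + θ)) ^ p) ≤ v e ^ p := by
      have e1 : d * θ - (b - (b0 + θ)) ^ p = (a - b ^ p) +
          (b ^ p - (b0 + θ) ^ p - (b - (b0 + θ)) ^ p) + ((b0 + θ) ^ p - b0 ^ p - θ ^ p) := by
        have : d * θ = c - θ ^ p := by rw [hd]; linear_combination hθ
        rw [this, hc]; ring
      rw [e1]
      exact v.map_add_le (v.map_add_le hlt (f2.trans hB.hp)) (f1.trans hB.hp)
    exact absurd (lt_of_lt_of_le hdθ hJ') (not_lt.2 f3)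
  have hθL : θ ∈ L := hLmax.le_of_ge hBM (le_ext1 L θ) (self_mem_ext1 L θ)
  have := hJ θ hθL
  rw [v.map_sub_swap c] at this
  exact absurd hθlt (not_lt.2 this)

end Pool.Agent.Helper975.RDR
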