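import Mathlib
import Pool.Agent.Helper975.RDR.Core3

set_option autoImplicit false

namespace Pool.Agent.Helper975.RDR

open Polynomial

variable {K Ω Γ : Type*} [Field K] [Field Ω] [Algebra K Ω] [IsAlgClosed Ω]
  [LinearOrderedCommGroupWithZero Γ] (v : Valuation Ω Γ)

/-- `η` has no best approximation in `L` -/
def NoMax (L : IntermediateField K Ω) (η : Ω) : Prop :=
  ∀ b ∈ L, ∃ b' ∈ L, v (η - b') < v (η - b)

omit [IsAlgClosed Ω] in
theorem NoMax.exists_close {L : IntermediateField K Ω} {η : Ω} (h : NoMax v L η)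
    (R : Multiset Ω) (hR : ∀ z ∈ R, z ∈ L) : ∃ b ∈ L, ∀ z ∈ R, v (η - b) < v (η - z) := by
  induction R using Multiset.induction_on with
  | empty => exact ⟨0, L.zero_mem, by simp⟩
  | cons z R ih =>
    obtain ⟨b, hb, hbR⟩ := ih (fun y hy => hR y (Multiset.mem_cons_of_mem hy))
    have hz := hR z (Multiset.mem_cons_self _ _)
    rcases le_total (v (η - b)) (v (η - z)) with h1 | h1
    · obtain ⟨b', hb', hlt⟩ := h b hb
      refine ⟨b', hb', ?_⟩
      intro y hy
      rcases Multiset.mem_cons.1 hy with h2 | h2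
      · rw [h2]; exact lt_of_lt_of_le hlt h1
      · exact hlt.trans (hbR y h2)
    · obtain ⟨b', hb', hlt⟩ := h z hz
      refine ⟨b', hb', ?_⟩
      intro y hy
      rcases Multiset.mem_cons.1 hy with h2 | h2
      · rw [h2]; exact hlt
      · exact hlt.trans_le (h1.trans (hbR y h2).le)

omit [IsAlgClosed Ω] in
theorem NoMax.notMem {L : IntermediateField K Ω} {η : Ω} (h : NoMax v L η) : η ∉ L := by
  intro hη
  obtain ⟨b', -, h1⟩ := h η hη
  rw [sub_self, map_zero] at h1
  exact absurd h1 (not_lt.2 zero_le)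

omit [IsAlgClosed Ω] in
theorem NoMax.pos {L : IntermediateField K Ω} {η : Ω} (h : NoMax v L η) {b : Ω} (hb : b ∈ L) :
    0 < v (η - b) := by
  obtain ⟨b', -, h1⟩ := h b hb
  exact lt_of_le_of_lt zero_le h1

omit [IsAlgClosed Ω] in
theorem prod_close (η b : Ω) (R : Multiset Ω) (hR : ∀ z ∈ R, v (η - b) < v (η - z)) :
    v ((R.map (η - ·)).prod - (R.map (b - ·)).prod) < v ((R.map (η - ·)).prod) := by
  induction R using Multiset.induction_on with
  | empty => simp
  | cons z R ih =>
    simp only [Multiset.map_cons, Multiset.prod_cons]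
    have h1 := hR z (Multiset.mem_cons_self _ _)
    have h2 := ih (fun y hy => hR y (Multiset.mem_cons_of_mem hy))
    set P := (R.map (η - ·)).prod with hP
    set Q := (R.map (b - ·)).prod with hQ
    have hP0 : 0 < v P := lt_of_le_of_lt zero_le h2
    have hz0 : 0 < v (η - z) := lt_of_le_of_lt zero_le h1
    have e : (η - z) * P - (b - z) * Q = (η - z) * (P - Q) + (η - b) * Q := by ring
    have hQP : v Q = v P := by
      rw [v.map_sub_swap] at h2
      exact v.map_eq_of_sub_lt h2
    rw [e, map_mul v (η - z) P]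
    apply v.map_add_lt
    · rw [map_mul]; exact mul_lt_mul_of_pos_left h2 hz0
    · rw [map_mul, hQP]; exact mul_lt_mul_of_pos_right h1 hP0

omit [IsAlgClosed Ω] in
theorem prod_shift (η η' b : Ω) (R : Multiset Ω) (hR : ∀ z ∈ R, v (η - b) ≤ v (η - z))
    (hη : v (η' - η) ≤ v (η - b)) :
    v ((R.map (η' - ·)).prod - (R.map (η - ·)).prod) * v (η - b) ≤
      v (η' - η) * v ((R.map (η - ·)).prod) := by
  induction R using Multiset.induction_on with
  | empty => simp
  | cons z R ih =>
    simp only [Multiset.map_cons, Multiset.prod_cons]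
    have h1 := hR z (Multiset.mem_cons_self _ _)
    have h2 := ih (fun y hy => hR y (Multiset.mem_cons_of_mem hy))
    set P := (R.map (η' - ·)).prod with hP
    set Q := (R.map (η - ·)).prod with hQ
    have e : (η' - z) * P - (η - z) * Q = (η' - z) * (P - Q) + (η' - η) * Q := by ring
    have h3 : v (η' - z) ≤ v (η - z) := by
      have e1 : η' - z = (η' - η) + (η - z) := by ring
      rw [e1]
      exact v.map_add_le (hη.trans h1) le_rfl
    rw [e]
    have a1 : v ((η' - z) * (P - Q)) * v (η - b) ≤ v (η' - η) * v ((η - z) * Q) := by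
      rw [map_mul, map_mul, mul_assoc]
      calc v (η' - z) * (v (P - Q) * v (η - b)) ≤ v (η - z) * (v (η' - η) * v Q) :=
            mul_le_mul' h3 h2
        _ = v (η' - η) * (v (η - z) * v Q) := by rw [mul_left_comm]
    have a2 : v ((η' - η) * Q) * v (η - b) ≤ v (η' - η) * v ((η - z) * Q) := by
      rw [map_mul, map_mul, mul_assoc]
      apply mul_le_mul_right
      rw [mul_comm]
      exact mul_le_mul_left h1 _
    rcases le_total (v ((η' - z) * (P - Q))) (v ((η' - η) * Q)) with h4 | h4
    · exact (mul_le_mul_left (v.map_add_le h4 le_rfl) _).trans a2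
    · exact (mul_le_mul_left (v.map_add_le le_rfl h4) _).trans a1

/-- approximation by elements of `L` -/
theorem approx {p : ℕ} {L : IntermediateField K Ω} (hL : Small p L) {η : Ω} (h : NoMax v L η)
    {g : L[X]} (hg : g.natDegree < p) (hg0 : aeval η g ≠ 0) :
    ∃ l ∈ L, v (aeval η g - l) < v (aeval η g) := by
  have hgne : g ≠ 0 := by rintro rfl; exact hg0 (map_zero _)
  obtain ⟨b, hb, hbR⟩ := h.exists_close v (g.aroots Ω) (roots_mem hL hgne hg)
  refine ⟨aeval b g, ?_, ?_⟩
  · have : aeval b g = (aeval (⟨b, hb⟩ : L) g : L) := by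
      exact (aeval_algebraMap_apply Ω (⟨b, hb⟩ : L) g)
    rw [this]; exact (aeval (⟨b, hb⟩ : L) g : L).2
  · rw [aeval_prod g η, aeval_prod g b, ← mul_sub, map_mul, map_mul]
    have hlc : 0 < v (g.leadingCoeff : Ω) := by
      rw [v.pos_iff]
      intro h0
      apply hgne
      have : (g.leadingCoeff : L) = 0 := Subtype.ext h0
      exact leadingCoeff_eq_zero.1 this
    exact mul_lt_mul_of_pos_left (prod_close v η b _ hbR) hlc

/-- how automorphisms move elements -/
theorem shift {p : ℕ} {L : IntermediateField K Ω} (hL : Small p L) {η : Ω} (h : NoMax v L η)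
    {η' : Ω} (hη : ∀ b ∈ L, v (η' - η) ≤ v (η - b)) {g : L[X]} (hg : g.natDegree < p) :
    ∃ b ∈ L, v (aeval η' g - aeval η g) * v (η - b) ≤ v (η' - η) * v (aeval η g) := by
  by_cases hgne : g = 0
  · exact ⟨0, L.zero_mem, by rw [hgne]; simp⟩
  obtain ⟨b, hb, hbR⟩ := h.exists_close v (g.aroots Ω) (roots_mem hL hgne hg)
  refine ⟨b, hb, ?_⟩
  rw [aeval_prod g η, aeval_prod g η', ← mul_sub, map_mul, map_mul, mul_assoc]
  calc v (g.leadingCoeff : Ω) * (v (((g.aroots Ω).map (η' - ·)).prod -
        ((g.aroots Ω).map (η - ·)).prod) * v (η - b))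
      ≤ v (g.leadingCoeff : Ω) * (v (η' - η) * v (((g.aroots Ω).map (η - ·)).prod)) :=
        mul_le_mul_right (prod_shift v η η' b _ (fun z hz => (hbR z hz).le) (hη b hb)) _
    _ = v (η' - η) * (v (g.leadingCoeff : Ω) * v (((g.aroots Ω).map (η - ·)).prod)) := by
        rw [mul_left_comm]

omit [IsAlgClosed Ω] in
theorem degree_eta {p : ℕ} {L : IntermediateField K Ω} (hL : Small p L) {η : Ω}
    (h : NoMax v L η) {F : L[X]} (hF : F.Monic) (hFd : F.natDegree = p) (hFη : aeval η F = 0) :
    (minpoly L η).natDegree = p := by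
  have hint : IsIntegral L η := ⟨F, hF, by rwa [aeval_def] at hFη⟩
  apply le_antisymm
  · rw [← hFd]
    exact natDegree_le_of_dvd (minpoly.dvd L η hFη) hF.ne_zero
  · by_contra hlt
    push Not at hlt
    exact h.notMem v (hL η hint hlt)

end Pool.Agent.Helper975.RDR
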