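import Mathlib

set_option autoImplicit false

universe u

/-! # Henselian fields, defect, independent defect, roughly deeply ramified fields

A valued field `(K, v)` is a field `K` with a valuation subring `A` (the valuation ring).
`A.valuation : K → A.ValueGroup` is the valuation in multiplicative notation: the additive
statement `v x ≤ v y` reads `A.valuation y ≤ A.valuation x`, and `v x = ∞` reads
`A.valuation x = 0`.  The value group `vK` is the group of units of `A.ValueGroup`,
the residue field is `IsLocalRing.ResidueField A`. -/

namespace Pool.Agent.Helper975.RDR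

/-- `(K, v)` is henselian: `v` extends uniquely to every algebraic extension of `K`. -/
def IsHenselianField {K : Type u} [Field K] (A : ValuationSubring K) : Prop :=
  ∀ (L : Type u) [Field L] [Algebra K L] [Algebra.IsAlgebraic K L],
    ∃! B : ValuationSubring L, B.comap (algebraMap K L) = A

/-- the subgroup `vK` of the value group `vL`, for an extension `(L, B)` of a valued field with
underlying field `K` -/
noncomputable def baseValues (K : Type u) {L : Type u} [Field K] [Field L] [Algebra K L]
    (B : ValuationSubring L) : Subgroup (B.ValueGroup)ˣ :=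
  (Units.map ((B.valuation : L →* B.ValueGroup).comp (algebraMap K L : K →* L))).range

/-- the subfield `Kv` of the residue field `Lv`, for an extension `(L, B)` of a valued field with
underlying field `K`: residue classes of the elements of `K` in the valuation ring -/
def baseResidues (K : Type u) {L : Type u} [Field K] [Field L] [Algebra K L]
    (B : ValuationSubring L) : Subring (IsLocalRing.ResidueField B) :=
  ((algebraMap K L).range.comap B.subtype).map (IsLocalRing.residue B)

/-- the dimension of a ring over a subring; for fields `R` and `S` the degree `[R:S]` -/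
noncomputable def degreeOver {R : Type*} [CommRing R] (S : Subring R) : ℕ :=
  Module.finrank S R

/-- the defect `d(L|K,v) = [L:K] / ((vL:vK) [Lv:Kv])` of a finite extension to which `v` extends
uniquely -/
noncomputable def defect (K : Type u) {L : Type u} [Field K] [Field L] [Algebra K L]
    (B : ValuationSubring L) : ℕ :=
  Module.finrank K L / ((baseValues K B).index * degreeOver (baseResidues K B))

/-- the set of all `α ∈ vK` of the form `v ((σ f - f) / f)` with `f ∈ L`, `f ≠ 0` -/
def sigmaSet {K L : Type u} [Field K] [Field L] [Algebra K L] (A : ValuationSubring K)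
    (B : ValuationSubring L) (σ : L ≃ₐ[K] L) : Set (A.ValueGroup)ˣ :=
  {α | ∃ a : K, A.valuation a = α ∧ ∃ f : L, f ≠ 0 ∧
    B.valuation ((σ f - f) / f) = B.valuation (algebraMap K L a)}

/-- `α > H` in additive notation -/
def AboveSubgroup {Γ : Type*} [LinearOrderedCommGroupWithZero Γ] (H : Subgroup Γˣ) (α : Γˣ) : Prop :=
  ∀ h ∈ H, α < h

/-- `H` is a proper convex subgroup -/
def IsProperConvex {Γ : Type*} [LinearOrderedCommGroupWithZero Γ] (H : Subgroup Γˣ) : Prop :=
  H ≠ ⊤ ∧ ∀ h ∈ H, ∀ g : Γˣ, h ≤ g → g ≤ 1 → g ∈ H

/-- the quotient by `H` has no smallest positive element (additive notation: for every `α > H`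
there is `β > H` with `α - β > H`) -/
def NoSmallestPositive {Γ : Type*} [LinearOrderedCommGroupWithZero Γ] (H : Subgroup Γˣ) : Prop :=
  ∀ α, AboveSubgroup H α → ∃ β, AboveSubgroup H β ∧ AboveSubgroup H (α / β)

/-- independent defect: `Σ = {α ∈ vK : α > H}` for a proper convex subgroup `H` of `vK` such that
`vK / H` has no smallest positive element.  (`Σ` does not depend on `σ ≠ id`.) -/
def HasIndependentDefect {K L : Type u} [Field K] [Field L] [Algebra K L] (A : ValuationSubring K)
    (B : ValuationSubring L) : Prop :=
  ∃ H : Subgroup (A.ValueGroup)ˣ, IsProperConvex H ∧ NoSmallestPositive H ∧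
    ∃ σ : L ≃ₐ[K] L, σ ≠ 1 ∧ sigmaSet A B σ = {α | AboveSubgroup H α}

/-- `(K, v)` is an independent defect field.  Here `K'` is `K(ζ_p)` if `char K = 0`, and `K` if
`char K = p`. -/
def IsIndependentDefectField {K : Type u} [Field K] (A : ValuationSubring K) : Prop :=
  ∀ p : ℕ, p.Prime → CharP (IsLocalRing.ResidueField A) p →
  ∀ (K' : Type u) [Field K'] [Algebra K K'],
    (CharZero K ∧ IsCyclotomicExtension {p} K K' ∨
      CharP K p ∧ Function.Bijective (algebraMap K K')) →
  ∀ A' : ValuationSubring K', A'.comap (algebraMap K K') = A →
  ∀ (L : Type u) [Field L] [Algebra K' L] [IsGalois K' L], Module.finrank K' L = p →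
  ∀ B : ValuationSubring L, B.comap (algebraMap K' L) = A' →
    (∀ C : ValuationSubring L, C.comap (algebraMap K' L) = A' → C = B) →
    1 < defect K' B → HasIndependentDefect A' B

/-- the ring `R / p R` is semiperfect: the `p`-th power map is surjective -/
def IsSemiperfectMod (R : Type*) [CommRing R] (p : ℕ) : Prop :=
  Function.Surjective fun x : R ⧸ Ideal.span {(p : R)} => x ^ p

/-- `O / p O` is semiperfect for the valuation ring `O` of the valued field `(F, w)` -/
def IsSemiperfectVal {F Γ : Type*} [Field F] [LinearOrderedCommGroupWithZero Γ]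
    (w : Valuation F Γ) (p : ℕ) : Prop :=
  IsSemiperfectMod w.valuationSubring p

/-- `O / p O` is semiperfect for the valuation ring `O` of the completion of the valued field `F` -/
def IsSemiperfectCompletion (F : Type*) {Γ : Type*} [Field F] [LinearOrderedCommGroupWithZero Γ]
    [Valued F Γ] (p : ℕ) : Prop :=
  IsSemiperfectVal (Valued.v (R := UniformSpace.Completion F)) p

/-- (DRvr) for residue characteristic `p`: `O_K / p O_K` is semiperfect if `char K = 0`, and
`O / p O` is semiperfect for the valuation ring `O` of the completion of `(K, v)` if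
`char K = p`. -/
def DRvr {K : Type u} [Field K] (A : ValuationSubring K) (p : ℕ) : Prop :=
  (CharZero K → IsSemiperfectMod A p) ∧
  (CharP K p → IsSemiperfectCompletion (WithVal A.valuation) p)

/-- (DRvp): `v p` is not the least positive element of `vK` -/
def DRvp {K : Type u} [Field K] (A : ValuationSubring K) (p : ℕ) : Prop :=
  ¬ IsGreatest {γ : A.ValueGroup | γ ≠ 0 ∧ γ < 1} (A.valuation (p : K))

/-- roughly deeply ramified valued fields -/
def IsRoughlyDeeplyRamified {K : Type u} [Field K] (A : ValuationSubring K) : Prop :=
  ∀ p : ℕ, p.Prime → CharP (IsLocalRing.ResidueField A) p → DRvr A p ∧ DRvp A p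

end Pool.Agent.Helper975.RDR
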