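import Mathlib
import Pool.Agent.Helper975.RDR.Defs

set_option autoImplicit false

universe u

namespace Pool.Agent.Helper975.RDR.R3



/-- TARGET R3a. residue characteristic in terms of the valuation -/
theorem charP_residue_iff {K : Type u} [Field K] (A : ValuationSubring K) (p : ℕ) (hp : p.Prime) :
    CharP (IsLocalRing.ResidueField A) p ↔ A.valuation (p : K) < 1 := by
  rw [CharP.charP_iff_prime_eq_zero hp]
  have h1 : ((p : IsLocalRing.ResidueField A)) = IsLocalRing.residue A (p : A) := by
    rw [map_natCast]
  rw [h1, IsLocalRing.residue_eq_zero_iff, A.valuation_lt_one_iff]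
  simp

/-- TARGET R3b. The unique extension to an algebraic extension is invariant under automorphisms. -/
theorem conj_invariant {K : Type u} [Field K] (A : ValuationSubring K) (hA : IsHenselianField A)
    (L : Type u) [Field L] [Algebra K L] [Algebra.IsAlgebraic K L] (B : ValuationSubring L)
    (hB : B.comap (algebraMap K L) = A) (σ : L ≃ₐ[K] L) (x : L) :
    B.valuation (σ x) = B.valuation x := by
  have hcomap : B.comap (σ : L →+* L) = B := by
    obtain ⟨B0, hB0, huniq⟩ := hA L
    have h1 : (B.comap (σ : L →+* L)).comap (algebraMap K L) = A := by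
      rw [← hB]
      ext y
      simp [ValuationSubring.mem_comap]
    rw [huniq _ h1, huniq _ hB]
  have hmem : ∀ y, σ y ∈ B ↔ y ∈ B := by
    intro y
    conv_rhs => rw [← hcomap]
    rfl
  have hle1 : ∀ y, B.valuation (σ y) ≤ 1 ↔ B.valuation y ≤ 1 := by
    intro y
    rw [ValuationSubring.valuation_le_one_iff, ValuationSubring.valuation_le_one_iff, hmem]
  have hle : ∀ y z, B.valuation (σ y) ≤ B.valuation (σ z) ↔ B.valuation y ≤ B.valuation z := by
    intro y z
    by_cases hz : z = 0
    · subst hz
      simp
    · have hz1 : B.valuation z ≠ 0 := by simpa using hz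
      have hz2 : B.valuation (σ z) ≠ 0 := by simpa using hz
      have h1 := hle1 (y / z)
      rw [map_div₀ σ, map_div₀ B.valuation, map_div₀ B.valuation] at h1
      rwa [div_le_one₀ (zero_lt_iff.2 hz2), div_le_one₀ (zero_lt_iff.2 hz1)] at h1
  have hlt : ∀ y z, B.valuation (σ y) < B.valuation (σ z) ↔ B.valuation y < B.valuation z := by
    intro y z
    rw [← not_le, ← not_le, hle]
  -- finite orbit
  let a : ℕ → L := fun i => (σ ^ i) x
  have ha : ∀ i, a (i + 1) = σ (a i) := by
    intro i
    simp only [a]
    rw [pow_succ']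
    rfl
  have hfin : (Set.range a).Finite := by
    have hx : IsIntegral K x := Algebra.IsIntegral.isIntegral x
    have h0 : minpoly K x ≠ 0 := minpoly.ne_zero hx
    apply ((minpoly K x).rootSet_finite L).subset
    rintro y ⟨i, rfl⟩
    rw [Polynomial.mem_rootSet]
    refine ⟨h0, ?_⟩
    simp only [a]
    have := Polynomial.aeval_algHom_apply ((σ ^ i : L ≃ₐ[K] L) : L →ₐ[K] L) x (minpoly K x)
    rw [minpoly.aeval, map_zero] at this
    exact this
  have hnotinj : ¬ Function.Injective (fun i => B.valuation (a i)) := by
    intro hinj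
    have h1 : Function.Injective a := fun i j h => hinj (by simp only [h])
    exact Set.infinite_range_of_injective h1 hfin
  rcases lt_trichotomy (B.valuation (σ x)) (B.valuation x) with h | h | h
  · exfalso
    apply hnotinj
    have : StrictAnti (fun i => B.valuation (a i)) := by
      apply strictAnti_nat_of_succ_lt
      intro i
      induction i with
      | zero => simpa [a] using h
      | succ i ih =>
        rw [ha (i + 1), ha i]
        rw [ha i] at ih
        exact (hlt _ _).2 ih
    exact this.injective
  · exact h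
  · exfalso
    apply hnotinj
    have : StrictMono (fun i => B.valuation (a i)) := by
      apply strictMono_nat_of_lt_succ
      intro i
      induction i with
      | zero => simpa [a] using h
      | succ i ih =>
        rw [ha (i + 1), ha i]
        rw [ha i] at ih
        exact (hlt _ _).2 ih
    exact this.injective

/-- TARGET R3c. Existence of many small values in a positive convex-free situation -/
theorem root_above {Γ : Type*} [LinearOrderedCommGroupWithZero Γ] (H : Subgroup Γˣ)
    (h : ∀ α, AboveSubgroup H α → ∃ β, AboveSubgroup H β ∧ AboveSubgroup H (α / β)) (n : ℕ)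
    (α : Γˣ) (hα : AboveSubgroup H α) : ∃ β, AboveSubgroup H β ∧ α ≤ β ^ n := by
  have hstep : ∀ α, AboveSubgroup H α → ∃ β, AboveSubgroup H β ∧ α ≤ β ^ 2 := by
    intro α hα
    obtain ⟨β1, h1, h2⟩ := h α hα
    refine ⟨max β1 (α / β1), fun g hg => max_lt (h1 g hg) (h2 g hg), ?_⟩
    calc α = β1 * (α / β1) := by rw [mul_div_cancel]
      _ ≤ max β1 (α / β1) * max β1 (α / β1) := mul_le_mul' (le_max_left _ _) (le_max_right _ _)
      _ = _ := (pow_two _).symm
  have hk : ∀ k : ℕ, ∀ α, AboveSubgroup H α → ∃ β, AboveSubgroup H β ∧ α ≤ β ^ (2 ^ k) := by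
    intro k
    induction k with
    | zero => intro α hα; exact ⟨α, hα, by simp⟩
    | succ k ih =>
      intro α hα
      obtain ⟨β, hβ, h1⟩ := ih α hα
      obtain ⟨γ, hγ, h2⟩ := hstep β hβ
      refine ⟨γ, hγ, h1.trans ?_⟩
      rw [pow_succ, mul_comm, pow_mul]
      exact pow_le_pow_left' h2 _
  obtain ⟨β, hβ, h1⟩ := hk n α hα
  refine ⟨β, hβ, h1.trans ?_⟩
  have hβ1 : β ≤ 1 := (hβ 1 H.one_mem).le
  exact pow_le_pow_right_of_le_one' hβ1 Nat.lt_two_pow_self.le

end Pool.Agent.Helper975.RDR.R3
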