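import Mathlib
import Pool.Agent.Helper975.RDR.Core4
import Pool.Agent.Helper975.RDR.JobR3

set_option autoImplicit false

universe u

namespace Pool.Agent.Helper975.RDR

open Polynomial

theorem comap_val_le {F Ω : Type*} [Field F] [Field Ω] (A : ValuationSubring Ω) (f : F →+* Ω)
    (x y : F) : (A.comap f).valuation x ≤ (A.comap f).valuation y ↔
      A.valuation (f x) ≤ A.valuation (f y) := by
  by_cases hy : y = 0
  · subst hy
    simp
  have h1 : 0 < (A.comap f).valuation y := ((A.comap f).valuation.pos_iff).2 hy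
  have h2 : 0 < A.valuation (f y) := (A.valuation.pos_iff).2 ((map_ne_zero f).2 hy)
  have e1 : (A.comap f).valuation x ≤ (A.comap f).valuation y ↔ (A.comap f).valuation (x / y) ≤ 1 := by
    rw [map_div₀, div_le_one₀ h1]
  have e2 : A.valuation (f x) ≤ A.valuation (f y) ↔ A.valuation (f (x / y)) ≤ 1 := by
    rw [map_div₀ f, map_div₀ A.valuation, div_le_one₀ h2]
  rw [e1, e2, ValuationSubring.valuation_le_one_iff, ValuationSubring.valuation_le_one_iff]
  rfl

theorem comap_val_lt {F Ω : Type*} [Field F] [Field Ω] (A : ValuationSubring Ω) (f : F →+* Ω)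
    (x y : F) : (A.comap f).valuation x < (A.comap f).valuation y ↔
      A.valuation (f x) < A.valuation (f y) := by
  rw [← not_le, ← not_le, comap_val_le]

theorem comap_val_eq {F Ω : Type*} [Field F] [Field Ω] (A : ValuationSubring Ω) (f : F →+* Ω)
    (x y : F) : (A.comap f).valuation x = (A.comap f).valuation y ↔
      A.valuation (f x) = A.valuation (f y) := by
  rw [le_antisymm_iff, le_antisymm_iff, comap_val_le, comap_val_le]

variable {K Ω : Type u} [Field K] [Field Ω] [Algebra K Ω] [IsAlgClosed Ω]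

theorem not_independent (Ab : ValuationSubring Ω) {p : ℕ} (hp : p.Prime)
    {L : IntermediateField K Ω} (hL : Small p L) {η : Ω} (hnm : NoMax Ab.valuation L η)
    {F : L[X]} (hF : F.Monic) (hFd : F.natDegree = p) (hFη : aeval η F = 0)
    (hσ : ∀ η' : Ω, aeval η' F = 0 → η' ≠ η → ∀ b ∈ L,
      Ab.valuation (η' - η) ^ p * Ab.valuation η < Ab.valuation (η - b) ^ p * Ab.valuation (η' - η))
    (BL : ValuationSubring L) (hBL : Ab.comap (algebraMap L Ω) = BL)
    (BE : ValuationSubring (IntermediateField.adjoin L {η}))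
    (hBE : Ab.comap (algebraMap (IntermediateField.adjoin L {η}) Ω) = BE) :
    ¬ HasIndependentDefect BL BE := by
  have hLlt : ∀ x y : L, BL.valuation x < BL.valuation y ↔
      Ab.valuation (x : Ω) < Ab.valuation (y : Ω) := by
    intro x y; subst hBL; exact comap_val_lt Ab (algebraMap L Ω) x y
  have hEeq : ∀ x y : IntermediateField.adjoin L {η}, BE.valuation x = BE.valuation y ↔
      Ab.valuation (x : Ω) = Ab.valuation (y : Ω) := by
    intro x y; subst hBE
    exact comap_val_eq Ab (algebraMap (IntermediateField.adjoin L {η}) Ω) x y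
  rintro ⟨H, -, hns, σ, hσ1, hSig⟩
  set v := Ab.valuation with hv
  set η0 : IntermediateField.adjoin L {η} := ⟨η, IntermediateField.mem_adjoin_simple_self L η⟩
    with hη0
  set η' : Ω := (σ η0 : Ω) with hη'
  have hη'F : aeval η' F = 0 := by
    have h1 : aeval η0 F = 0 := by
      apply Subtype.ext
      have : ((aeval η0 F : IntermediateField.adjoin L {η}) : Ω) = aeval η F :=
        (aeval_algebraMap_apply Ω η0 F).symm
      rw [this]; exact hFη
    have h2 : aeval (σ η0) F = 0 := by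
      have h4 : aeval (σ η0) F = σ (aeval η0 F) := aeval_algHom_apply σ.toAlgHom η0 F
      rw [h4, h1, map_zero]
    have h3 : ((aeval (σ η0) F : IntermediateField.adjoin L {η}) : Ω) = aeval η' F :=
      (aeval_algebraMap_apply Ω (σ η0) F).symm
    rw [← h3, h2]; rfl
  -- every element is a polynomial in `η`
  have hpoly : ∀ x : IntermediateField.adjoin L {η}, ∃ g : L[X], g.natDegree < p ∧
      aeval η g = (x : Ω) ∧ aeval η' g = (σ x : Ω) := by
    intro x
    obtain ⟨g, hg, hgx⟩ := exists_poly hp.pos hF hFd hFη x.2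
    refine ⟨g, hg, hgx, ?_⟩
    have h1 : aeval η0 g = x := by
      apply Subtype.ext
      have : ((aeval η0 g : IntermediateField.adjoin L {η}) : Ω) = aeval η g :=
        (aeval_algebraMap_apply Ω η0 g).symm
      rw [this]; exact hgx
    have h3 : ((aeval (σ η0) g : IntermediateField.adjoin L {η}) : Ω) = aeval η' g :=
      (aeval_algebraMap_apply Ω (σ η0) g).symm
    have h4 : aeval (σ η0) g = σ (aeval η0 g) := aeval_algHom_apply σ.toAlgHom η0 g
    rw [← h3, h4, h1]
  have hη'ne : η' ≠ η := by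
    intro heq
    apply hσ1
    ext x
    obtain ⟨g, -, h1, h2⟩ := hpoly x
    rw [heq, h1] at h2
    exact h2.symm
  have hδ := hσ η' hη'F hη'ne
  have hη00 : η0 ≠ 0 := by
    intro h0
    apply hnm.notMem
    have : η = 0 := congrArg Subtype.val h0
    rw [this]; exact L.zero_mem
  have hη_ne : η ≠ 0 := fun h0 => hη00 (Subtype.ext h0)
  have hvη : 0 < v η := (v.pos_iff).2 hη_ne
  have hvδ : 0 < v (η' - η) := (v.pos_iff).2 (sub_ne_zero.2 hη'ne)
  -- the element `s0`
  set s0 : IntermediateField.adjoin L {η} := (σ η0 - η0) / η0 with hs0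
  have hs0v : v (s0 : Ω) = v (η' - η) / v η := by
    have : (s0 : Ω) = (η' - η) / η := rfl
    rw [this, map_div₀]
  have hs0ne : (s0 : Ω) ≠ 0 := by
    rw [← v.pos_iff, hs0v]
    exact div_pos hvδ hvη
  obtain ⟨g0, hg0, hg0s, -⟩ := hpoly s0
  obtain ⟨l, hl, hlt⟩ := approx v hL hnm hg0 (by rw [hg0s]; exact hs0ne)
  rw [hg0s] at hlt
  have hls : v l = v (s0 : Ω) := by
    rw [v.map_sub_swap] at hlt
    exact v.map_eq_of_sub_lt hlt
  have hl0 : (⟨l, hl⟩ : L) ≠ 0 := by
    intro h0
    have : l = 0 := congrArg Subtype.val h0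
    rw [this, map_zero] at hls
    exact hs0ne ((map_eq_zero v).1 hls.symm)
  set α0 : (BL.ValueGroup)ˣ := Units.mk0 (BL.valuation ⟨l, hl⟩) ((_root_.map_ne_zero _).2 hl0) with hα0
  have hα0S : α0 ∈ sigmaSet BL BE σ := by
    refine ⟨⟨l, hl⟩, rfl, η0, hη00, ?_⟩
    rw [← hs0, hEeq]
    exact hls.symm
  rw [hSig] at hα0S
  have hα1 : α0 < 1 := hα0S 1 H.one_mem
  obtain ⟨β, hβ, hβα⟩ := R3.root_above H hns (p + 1) α0 hα0S
  have hβ1 : β < 1 := hβ 1 H.one_mem
  have hβS : β ∈ sigmaSet BL BE σ := by rw [hSig]; exact hβ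
  obtain ⟨a, haβ, f, hf0, hfa⟩ := hβS
  rw [hEeq] at hfa
  -- `v (η' - η) < v (η - b)` for all `b`
  have hs1 : v (s0 : Ω) < 1 := by
    have h1 : BL.valuation ⟨l, hl⟩ < BL.valuation 1 := by
      rw [map_one]
      have : (α0 : BL.ValueGroup) < ((1 : (BL.ValueGroup)ˣ) : BL.ValueGroup) := by
        exact_mod_cast hα1
      simpa [hα0] using this
    rw [hLlt] at h1
    have h2 : v ((1 : L) : Ω) = 1 := by
      have : ((1 : L) : Ω) = 1 := rfl
      rw [this, map_one]
    rw [h2] at h1
    rw [← hls]; exact h1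
  have hδη : v (η' - η) < v η := by
    rw [hs0v, div_lt_one₀ hvη] at hs1
    exact hs1
  have hδb : ∀ b ∈ L, v (η' - η) ≤ v (η - b) := by
    intro b hb
    have h1 := hδ b hb
    have h2 : v (η' - η) ^ p * v η < v (η - b) ^ p * v η :=
      lt_of_lt_of_le h1 (mul_le_mul_right hδη.le _)
    have h3 := lt_of_mul_lt_mul_right h2 zero_le
    exact ((pow_lt_pow_iff' hp.ne_zero).1 h3).le
  obtain ⟨g, hg, hgf, hgf'⟩ := hpoly f
  obtain ⟨b, hb, hbb⟩ := shift v hL hnm hδb hg
  rw [hgf, hgf'] at hbb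
  have hvf : 0 < v (f : Ω) := by
    rw [v.pos_iff]
    intro h0
    exact hf0 (Subtype.ext h0)
  have hvb : 0 < v (η - b) := hnm.pos v hb
  have hfa' : v ((a : L) : Ω) * v (η - b) ≤ v (η' - η) := by
    have h1 : v (((σ f - f) / f : IntermediateField.adjoin L {η}) : Ω) = v ((a : L) : Ω) := hfa
    have h2 : (((σ f - f) / f : IntermediateField.adjoin L {η}) : Ω) =
        ((σ f : Ω) - (f : Ω)) / (f : Ω) := rfl
    rw [h2, map_div₀] at h1
    rw [← h1]
    rw [div_mul_eq_mul_div, div_le_iff₀ hvf]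
    exact hbb
  -- final contradiction
  have hlp : v l * v η = v (η' - η) := by
    rw [hls, hs0v, div_mul_cancel₀ _ hvη.ne']
  have h5 : v ((a : L) : Ω) ^ p < v l := by
    have h6 := hδ b hb
    have h7 : (v ((a : L) : Ω) * v (η - b)) ^ p * v η ≤ v (η' - η) ^ p * v η :=
      mul_le_mul_left (pow_le_pow_left' hfa' p) _
    have h8 : (v ((a : L) : Ω) * v (η - b)) ^ p * v η < v (η - b) ^ p * v (η' - η) :=
      lt_of_le_of_lt h7 h6
    rw [← hlp, mul_pow] at h8
    have e1 : v ((a : L) : Ω) ^ p * v (η - b) ^ p * v η =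
        (v (η - b) ^ p * v η) * v ((a : L) : Ω) ^ p := by
      rw [mul_comm (v ((a : L) : Ω) ^ p), mul_assoc, mul_comm (v ((a : L) : Ω) ^ p), ← mul_assoc]
    have e2 : v (η - b) ^ p * (v l * v η) = (v (η - b) ^ p * v η) * v l := by
      rw [mul_comm (v l), ← mul_assoc]
    rw [e1, e2] at h8
    exact lt_of_mul_lt_mul_left h8 zero_le
  have h6 : BL.valuation a ^ p < BL.valuation ⟨l, hl⟩ := by
    rw [← map_pow, hLlt]
    have : v ((a ^ p : L) : Ω) = v ((a : L) : Ω) ^ p := by
      rw [← map_pow]; rfl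
    rw [this]
    exact h5
  have h7 : β ^ p < α0 := by
    rw [← Units.val_lt_val, Units.val_pow_eq_pow_val, ← haβ]
    exact h6
  have h8 : β ^ p < β ^ (p + 1) := lt_of_lt_of_le h7 hβα
  rw [pow_succ] at h8
  have h9 : (1 : (BL.ValueGroup)ˣ) < β := by
    have : β ^ p * 1 < β ^ p * β := by rwa [mul_one]
    exact lt_of_mul_lt_mul_left' this
  exact absurd h9 (not_lt.2 hβ1.le)

end Pool.Agent.Helper975.RDR
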