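import Mathlib
import Pool.Agent.Helper975.RDR.Core4

set_option autoImplicit false

namespace Pool.Agent.Helper975.RDR

open Polynomial

variable {K Ω Γ : Type*} [Field K] [Field Ω] [Algebra K Ω] [IsAlgClosed Ω]
  [LinearOrderedCommGroupWithZero Γ] (v : Valuation Ω Γ)

/-- the data needed for the last step -/
def GoodEta (p : ℕ) (L : IntermediateField K Ω) : Prop :=
  ∃ (η : Ω) (F : L[X]), F.Monic ∧ F.natDegree = p ∧ aeval η F = 0 ∧ NoMax v L η ∧ F.Separable ∧
    (∀ η' : Ω, aeval η' F = 0 → η' ∈ IntermediateField.adjoin L {η}) ∧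
    ∀ η' : Ω, aeval η' F = 0 → η' ≠ η → ∀ b ∈ L,
      v (η' - η) ^ p * v η < v (η - b) ^ p * v (η' - η)

omit [IsAlgClosed Ω] in
/-- common part -/
theorem noMax_of {p : ℕ} (hp : p.Prime) {a e : Ω} {L : IntermediateField K Ω}
    (hB : Bad v p a e L) (hn : ∀ b ∈ L, ∃ b' ∈ L, v (a - b' ^ p) < v (a - b ^ p)) {η : Ω}
    (hη1 : v η ≤ 1) (hη : ∀ b ∈ L, v b ≤ 1 → v (η - b) ^ p = v (a - b ^ p)) :
    NoMax v L η ∧ ∀ b ∈ L, v e ^ p < v (η - b) ^ p := by
  have hsm : ∀ b ∈ L, v (a - b ^ p) ≤ 1 → v b ≤ 1 := by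
    intro b _ h1
    have h2 : v (b ^ p) ≤ 1 := by
      have e1 : b ^ p = a - (a - b ^ p) := by ring
      rw [e1]; exact v.map_sub_le hB.ha1 h1
    rw [map_pow] at h2
    exact (pow_le_one_iff hp.ne_zero).1 h2
  have hbig : ∀ b ∈ L, 1 < v b → 1 < v (η - b) := by
    intro b _ h1
    rw [v.map_sub_eq_of_lt_right (lt_of_le_of_lt hη1 h1)]
    exact h1
  constructor
  · intro b hb
    rcases le_or_gt (v b) 1 with h1 | h1
    · obtain ⟨b', hb', hlt⟩ := hn b hb
      have hb1 : v (a - b ^ p) ≤ 1 := v.map_sub_le hB.ha1 (by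
        rw [map_pow]; exact pow_le_one' h1 p)
      have hb'1 := hsm b' hb' (hlt.le.trans hb1)
      refine ⟨b', hb', ?_⟩
      rw [← hη b hb h1, ← hη b' hb' hb'1] at hlt
      exact (pow_lt_pow_iff' hp.ne_zero).1 hlt
    · refine ⟨0, L.zero_mem, ?_⟩
      rw [sub_zero]
      exact lt_of_le_of_lt hη1 (hbig b hb h1)
  · intro b hb
    rcases le_or_gt (v b) 1 with h1 | h1
    · rw [hη b hb h1]; exact hB.bad b hb
    · have h2 := hbig b hb h1
      calc v e ^ p ≤ 1 := pow_le_one' hB.he1.le p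
        _ = 1 ^ p := (one_pow p).symm
        _ < v (η - b) ^ p := (pow_lt_pow_iff' hp.ne_zero).2 h2

theorem small_root {p : ℕ} {L : IntermediateField K Ω} (hL : Small p L) {x : Ω} {G : L[X]}
    (hG : G ≠ 0) (hGd : G.natDegree < p) (hx : aeval x G = 0) : x ∈ L := by
  apply roots_mem hL hG hGd
  rw [mem_aroots]
  exact ⟨hG, hx⟩

/-- Kummer case -/
theorem kummer_eta {p : ℕ} (hp : p.Prime) {a e : Ω} {L : IntermediateField K Ω}
    (hL : Small p L) (hB : Bad v p a e L)
    (hn : ∀ b ∈ L, ∃ b' ∈ L, v (a - b' ^ p) < v (a - b ^ p)) [CharZero Ω] :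
    GoodEta v p L := by
  have hvp : v (p : Ω) < 1 := lt_of_le_of_lt hB.hp (pow_lt_one' hB.he1 hp.ne_zero)
  set a' : L := ⟨a, hB.ha⟩ with ha'
  let F : L[X] := X ^ p - C a'
  have hF : F.Monic := monic_X_pow_sub_C a' hp.ne_zero
  have hFd : F.natDegree = p := natDegree_X_pow_sub_C
  obtain ⟨η, hηr⟩ := IsAlgClosed.exists_aeval_eq_zero Ω F (by
    rw [degree_eq_natDegree hF.ne_zero, hFd]
    exact_mod_cast hp.ne_zero)
  have hroot : ∀ x : Ω, aeval x F = 0 ↔ x ^ p = a := by
    intro x
    have h1 : aeval x F = x ^ p - a := by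
      simp only [F, map_sub, map_pow, aeval_X, aeval_C]; rfl
    rw [h1, sub_eq_zero]
  have hηp : η ^ p = a := (hroot η).1 hηr
  have hη1 : v η ≤ 1 := by
    have h1 : v (η ^ p) ≤ 1 := by rw [hηp]; exact hB.ha1
    rw [map_pow] at h1
    exact (pow_le_one_iff hp.ne_zero).1 h1
  have hη : ∀ b ∈ L, v b ≤ 1 → v (η - b) ^ p = v (a - b ^ p) := by
    intro b hb hb1
    have h1 := fr v hp (η - b) b 1 (v.map_sub_le hη1 hb1) hb1
    rw [sub_add_cancel, one_pow, mul_one, hηp] at h1
    have h2 := lt_of_le_of_lt (h1.trans hB.hp) (hB.bad b hb)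
    have e1 : (η - b) ^ p = (a - b ^ p) - (a - (η - b) ^ p - b ^ p) := by ring
    rw [← map_pow, e1]
    exact v.map_sub_eq_of_lt_left h2
  obtain ⟨hNM, hbd⟩ := noMax_of v hp hB hn hη1 hη
  have hη0 : η ≠ 0 := by
    rintro rfl
    exact hNM.notMem v L.zero_mem
  have hvη : 0 < v η := (v.pos_iff).2 hη0
  have ha0 : a ≠ 0 := by rw [← hηp]; exact pow_ne_zero _ hη0
  -- quotients of roots
  have hxi : ∀ η' : Ω, η' ^ p = a → η' ≠ η → ∃ y : Ω, η' - η = y * η ∧ y ≠ 0 ∧
      v y ^ (p - 1) ≤ v (p : Ω) ∧ 1 + y ∈ L := by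
    intro η' h1 h2
    refine ⟨η' / η - 1, by field_simp, ?_, ?_, ?_⟩
    · intro h0
      apply h2
      have : η' / η = 1 := by linear_combination h0
      rwa [div_eq_one_iff_eq hη0] at this
    · set y := η' / η - 1 with hy
      have hy0 : y ≠ 0 := by
        intro h0
        apply h2
        have : η' / η = 1 := by rw [hy] at h0; linear_combination h0
        rwa [div_eq_one_iff_eq hη0] at this
      have hxp : (1 + y) ^ p = 1 := by
        rw [hy, add_sub_cancel, div_pow, h1, hηp, div_self ha0]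
      have hx1 : v (1 + y) ≤ 1 := by
        have : v ((1 + y) ^ p) ≤ 1 := by rw [hxp, map_one]
        rw [map_pow] at this
        exact (pow_le_one_iff hp.ne_zero).1 this
      have hy1 : v y ≤ 1 := by
        have : y = (1 + y) - 1 := by ring
        rw [this]; exact v.map_sub_le hx1 (by rw [map_one])
      rw [add_pow_prime_eq hp] at hxp
      set S := ∑ k ∈ Finset.Ioo 0 p, (1 : Ω) ^ (k - 1) * y ^ (p - k - 1) *
        ((p.choose k / p : ℕ) : Ω) with hS
      have hS1 : v S ≤ 1 := by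
        apply v.map_sum_le
        intro k _
        rw [one_pow, one_mul, map_mul, map_pow]
        exact mul_le_one' (pow_le_one' hy1 _) (v_nat_le v _)
      have h3 : y ^ (p - 1) * y = (-((p : Ω) * S)) * y := by
        rw [← pow_succ, Nat.sub_add_cancel hp.one_lt.le]
        rw [one_pow] at hxp
        linear_combination hxp
      have h4 : y ^ (p - 1) = -((p : Ω) * S) := mul_right_cancel₀ hy0 h3
      rw [← map_pow, h4, Valuation.map_neg, map_mul]
      exact mul_le_of_le_one_right zero_le hS1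
    · have e1 : 1 + (η' / η - 1) = η' / η := by ring
      rw [e1]
      have hne : η' / η ≠ 1 := by
        intro h0; apply h2
        rwa [div_eq_one_iff_eq hη0] at h0
      have hG : (∑ i ∈ Finset.range p, (X : L[X]) ^ i) ≠ 0 := by
        have : (∑ i ∈ Finset.range p, (X : L[X]) ^ i).Monic :=
          Polynomial.Monic.geom_sum' monic_X (by rw [degree_X]; norm_num) hp.ne_zero
        exact this.ne_zero
      apply small_root hL (G := ∑ i ∈ Finset.range p, (X : L[X]) ^ i) hG
      · refine lt_of_le_of_lt (natDegree_sum_le _ _) ?_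
        rw [Finset.fold_max_lt]
        refine ⟨hp.pos, ?_⟩
        intro i hi
        simp only [Function.comp]
        rw [natDegree_X_pow]
        exact Finset.mem_range.1 hi
      · rw [map_sum]
        simp only [map_pow, aeval_X]
        have h5 := Commute.geom_sum₂_mul (Commute.all (η' / η) 1) p
        have h6 : (∑ i ∈ Finset.range p, (η' / η) ^ i) * (η' / η - 1) = 0 := by
          have := geom_sum_mul (η' / η) p
          rw [this, div_pow, h1, hηp, div_self ha0, sub_self]
        rcases mul_eq_zero.1 h6 with h7 | h7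
        · exact h7
        · exact absurd (sub_eq_zero.1 h7) hne
  refine ⟨η, F, hF, hFd, hηr, hNM, ?_, ?_, ?_⟩
  · apply separable_X_pow_sub_C a'
    · have : ((p : L) : Ω) ≠ 0 := by
        have : ((p : L) : Ω) = (p : Ω) := by norm_cast
        rw [this]
        exact_mod_cast hp.ne_zero
      intro h0; apply this; rw [h0]; rfl
    · intro h0; apply ha0; exact congrArg Subtype.val h0
  · intro η' hη'
    by_cases h1 : η' = η
    · rw [h1]; exact IntermediateField.mem_adjoin_simple_self L η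
    obtain ⟨y, hy, -, -, hyL⟩ := hxi η' ((hroot η').1 hη') h1
    have e1 : η' = (1 + y) * η := by linear_combination hy
    rw [e1]
    exact mul_mem ((IntermediateField.adjoin L {η}).algebraMap_mem ⟨1 + y, hyL⟩)
      (IntermediateField.mem_adjoin_simple_self L η)
  · intro η' hη' h1 b hb
    obtain ⟨y, hy, hy0, hyp, -⟩ := hxi η' ((hroot η').1 hη') h1
    have hvy : 0 < v y := (v.pos_iff).2 hy0
    rw [hy, map_mul, mul_pow]
    have h2 : v y ^ (p - 1) < v (η - b) ^ p := lt_of_le_of_lt (hyp.trans hB.hp) (hbd b hb)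
    have h3 : v y ^ p = v y ^ (p - 1) * v y := by
      rw [← pow_succ, Nat.sub_add_cancel hp.one_lt.le]
    calc v y ^ p * v η ^ p * v η ≤ v y ^ p * 1 * v η := by
          apply mul_le_mul_left
          exact mul_le_mul_right (pow_le_one' hη1 p) _
      _ = v y ^ (p - 1) * (v y * v η) := by rw [mul_one, h3, mul_assoc]
      _ < v (η - b) ^ p * (v y * v η) := mul_lt_mul_of_pos_right h2 (mul_pos hvy hvη)

/-- Artin-Schreier case -/
theorem as_eta {p : ℕ} (hp : p.Prime) {a e : Ω} {L : IntermediateField K Ω}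
    (hL : Small p L) (hB : Bad v p a e L)
    (hn : ∀ b ∈ L, ∃ b' ∈ L, v (a - b' ^ p) < v (a - b ^ p)) [CharP Ω p] :
    GoodEta v p L := by
  have : Fact p.Prime := ⟨hp⟩
  have hve : 0 < v e := (v.pos_iff).2 hB.he0
  set a' : L := ⟨a, hB.ha⟩ with ha'
  set e' : L := ⟨e, hB.he⟩ with he'
  let F : L[X] := X ^ p + (-(C ((e' ^ 2) ^ (p - 1)) * X) - C a')
  have hdegq : (-(C ((e' ^ 2) ^ (p - 1)) * X) - C a' : L[X]).degree < p := by
    have h1 : (-(C ((e' ^ 2) ^ (p - 1)) * X) - C a' : L[X]).degree ≤ 1 := by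
      refine (degree_sub_le _ _).trans (max_le ?_ (degree_C_le.trans (by norm_num)))
      rw [degree_neg]
      exact degree_C_mul_X_le _
    refine lt_of_le_of_lt h1 ?_
    exact_mod_cast hp.one_lt
  have hF : F.Monic := monic_X_pow_add hdegq
  have hFd : F.natDegree = p := by
    have : F.degree = p := by
      rw [show F = X ^ p + (-(C ((e' ^ 2) ^ (p - 1)) * X) - C a') from rfl,
        degree_add_eq_left_of_degree_lt]
      · exact degree_X_pow p
      · rw [degree_X_pow]; exact hdegq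
    exact natDegree_eq_of_degree_eq_some this
  obtain ⟨η, hηr⟩ := IsAlgClosed.exists_aeval_eq_zero Ω F (by
    rw [degree_eq_natDegree hF.ne_zero, hFd]
    exact_mod_cast hp.ne_zero)
  set t : Ω := e ^ 2 with ht
  have ht0 : t ≠ 0 := pow_ne_zero _ hB.he0
  have htL : t ∈ L := pow_mem hB.he 2
  have hroot : ∀ x : Ω, aeval x F = 0 ↔ x ^ p = t ^ (p - 1) * x + a := by
    intro x
    have h1 : aeval x F = x ^ p + (-(t ^ (p - 1) * x) - a) := by
      simp only [F, map_add, map_sub, map_neg, map_mul, map_pow, aeval_X, aeval_C]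
      rfl
    rw [h1]
    constructor
    · intro h; linear_combination h
    · intro h; linear_combination h
  have hηp := (hroot η).1 hηr
  have hte : v t ^ (p - 1) ≤ v e ^ p := by
    rw [ht, map_pow, ← pow_mul]
    apply pow_le_pow_right_of_le_one' hB.he1.le
    have := hp.two_le
    omega
  have ht1 : v t ^ (p - 1) ≤ 1 := hte.trans (pow_le_one' hB.he1.le p)
  have hp1 : p - 1 ≠ 0 := by have := hp.one_lt; omega
  have hη1 : v η ≤ 1 := by
    by_contra hc
    push Not at hc
    have h1 : v η ^ p ≤ v η := by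
      rw [← map_pow, hηp]
      apply v.map_add_le
      · rw [map_mul, map_pow]; exact mul_le_of_le_one_left zero_le ht1
      · exact hB.ha1.trans hc.le
    have h2 : v η ^ (p - 1) ≤ 1 := by
      have h3 : v η ^ (p - 1) * v η ≤ 1 * v η := by
        rw [← pow_succ, Nat.sub_add_cancel hp.one_lt.le, one_mul]; exact h1
      exact le_of_mul_le_mul_right h3 (lt_of_le_of_lt zero_le hc)
    exact absurd ((pow_le_one_iff hp1).1 h2) (not_le.2 hc)
  have hη : ∀ b ∈ L, v b ≤ 1 → v (η - b) ^ p = v (a - b ^ p) := by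
    intro b hb _
    rw [← map_pow, sub_pow_char, hηp]
    have h2 : v (t ^ (p - 1) * η) < v (a - b ^ p) := by
      refine lt_of_le_of_lt ?_ (hB.bad b hb)
      rw [map_mul, map_pow]
      exact (mul_le_of_le_one_right zero_le hη1).trans hte
    have e1 : t ^ (p - 1) * η + a - b ^ p = t ^ (p - 1) * η + (a - b ^ p) := by ring
    rw [e1]
    exact v.map_add_eq_of_lt_right h2
  obtain ⟨hNM, hbd⟩ := noMax_of v hp hB hn hη1 hη
  have hdelta : ∀ η' : Ω, aeval η' F = 0 → η' ≠ η → (η' - η) ^ (p - 1) = t ^ (p - 1) := by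
    intro η' h1 h2
    have h3 := (hroot η').1 h1
    have h4 : (η' - η) ^ (p - 1) * (η' - η) = t ^ (p - 1) * (η' - η) := by
      rw [← pow_succ, Nat.sub_add_cancel hp.one_lt.le, sub_pow_char, h3, hηp]; ring
    exact mul_right_cancel₀ (sub_ne_zero.2 h2) h4
  refine ⟨η, F, hF, hFd, hηr, hNM, ?_, ?_, ?_⟩
  · -- separable
    have hd : derivative F = C (-(e' ^ 2) ^ (p - 1)) := by
      have : ((p : ℕ) : L[X]) = 0 := by
        have : CharP L p := (algebraMap L Ω).charP (algebraMap L Ω).injective p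
        rw [← C_eq_natCast, CharP.cast_eq_zero, C_0]
      simp only [F, derivative_add, derivative_sub, derivative_neg, derivative_mul, derivative_C,
        derivative_X, derivative_X_pow, zero_mul, zero_add, mul_one, sub_zero]
      rw [C_eq_natCast, this, zero_mul, zero_add, C_neg]
    have he'0 : e' ≠ 0 := by
      intro h0; exact hB.he0 (congrArg Subtype.val h0)
    have hc0 : -(e' ^ 2) ^ (p - 1) ≠ 0 := neg_ne_zero.2 (pow_ne_zero _ (pow_ne_zero _ he'0))
    rw [separable_def, hd]
    exact ⟨0, C ((-(e' ^ 2) ^ (p - 1))⁻¹), by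
      rw [zero_mul, zero_add, ← C_mul, inv_mul_cancel₀ hc0, C_1]⟩
  · intro η' hη'
    by_cases h1 : η' = η
    · rw [h1]; exact IntermediateField.mem_adjoin_simple_self L η
    have h2 := hdelta η' hη' h1
    have h3 : (η' - η) / t ∈ L := by
      apply small_root hL (G := X ^ (p - 1) - C 1) (monic_X_pow_sub_C 1 hp1).ne_zero
      · rw [natDegree_X_pow_sub_C]; have := hp.pos; omega
      · rw [map_sub, map_pow, aeval_X, aeval_C, map_one, div_pow, h2,
          div_self (pow_ne_zero _ ht0), sub_self]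
    have e1 : η' = η + ((η' - η) / t) * t := by field_simp; ring
    rw [e1]
    exact add_mem (IntermediateField.mem_adjoin_simple_self L η)
      (mul_mem ((IntermediateField.adjoin L {η}).algebraMap_mem ⟨_, h3⟩)
        ((IntermediateField.adjoin L {η}).algebraMap_mem ⟨t, htL⟩))
  · intro η' hη' h1 b hb
    have h2 := hdelta η' hη' h1
    have hδ0 : 0 < v (η' - η) := (v.pos_iff).2 (sub_ne_zero.2 h1)
    have h3 : v (η' - η) ^ (p - 1) < v (η - b) ^ p := by
      rw [← map_pow, h2, map_pow]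
      exact lt_of_le_of_lt hte (hbd b hb)
    calc v (η' - η) ^ p * v η ≤ v (η' - η) ^ p * 1 := mul_le_mul_right hη1 _
      _ = v (η' - η) ^ (p - 1) * v (η' - η) := by
          rw [mul_one, ← pow_succ, Nat.sub_add_cancel hp.one_lt.le]
      _ < v (η - b) ^ p * v (η' - η) := mul_lt_mul_of_pos_right h3 hδ0

end Pool.Agent.Helper975.RDR
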