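import Mathlib
import Pool.Agent.Helper975.RDR.Defs

set_option autoImplicit false

universe u

namespace Pool.Agent.Helper975.RDR.R1


open Filter Topology Valuation in
theorem perfect_of_dense' {L : Type*} [Field L] {Γ : Type*} [LinearOrderedCommGroupWithZero Γ]
    [hv : Valued L Γ] [CompleteSpace L] [T2Space L] (p : ℕ) (hp : p.Prime) [CharP L p]
    (hd : ∀ x : L, ∀ s ∈ 𝓝 x, ∃ y : L, y ^ p ∈ s) (x : L) : ∃ y : L, y ^ p = x := by
  have : Fact p.Prime := ⟨hp⟩
  have hne : (comap (fun y : L => y ^ p) (𝓝 x)).NeBot := by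
    rw [comap_neBot_iff]
    intro s hs
    exact hd x s hs
  have hc : Cauchy (comap (fun y : L => y ^ p) (𝓝 x)) := by
    rw [Valued.cauchy_iff]
    refine ⟨hne, fun γ => ?_⟩
    refine ⟨(fun y : L => y ^ p) ⁻¹' {y | hv.v.restrict (y - x) < ((γ ^ p : (MonoidWithZeroHom.ValueGroup₀ (.ofClass hv.v))ˣ) : MonoidWithZeroHom.ValueGroup₀ (.ofClass hv.v))}, ?_, ?_⟩
    · apply preimage_mem_comap
      rw [Valued.mem_nhds]
      exact ⟨γ ^ p, subset_rfl⟩
    · intro y hy z hz
      have h1 : hv.v.restrict ((z - y) ^ p) < ((γ ^ p : (MonoidWithZeroHom.ValueGroup₀ (.ofClass hv.v))ˣ) : MonoidWithZeroHom.ValueGroup₀ (.ofClass hv.v)) := by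
        rw [sub_pow_char]
        have : z ^ p - y ^ p = (z ^ p - x) - (y ^ p - x) := by ring
        rw [this]
        exact lt_of_le_of_lt (Valuation.map_sub _ _ _) (max_lt hz hy)
      rw [map_pow, Units.val_pow_eq_pow_val] at h1
      exact lt_of_pow_lt_pow_left₀ p zero_le h1
  obtain ⟨y, hy⟩ := CompleteSpace.complete hc
  refine ⟨y, ?_⟩
  have h1 : Tendsto (fun y : L => y ^ p) (comap (fun y : L => y ^ p) (𝓝 x)) (𝓝 x) := tendsto_comap
  have h2 : Tendsto (fun y : L => y ^ p) (comap (fun y : L => y ^ p) (𝓝 x)) (𝓝 (y ^ p)) :=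
    ((continuous_pow p).tendsto y).mono_left hy
  exact tendsto_nhds_unique h2 h1

open Filter Topology Valuation in
/-- TARGET R1. If the p-th powers are dense then the valuation ring of the completion is
semiperfect. -/
theorem drvr_of_dense {K : Type u} [Field K] (A : ValuationSubring K) (hA : A ≠ ⊤) (p : ℕ)
    (hp : p.Prime) [CharP K p] (h : ∀ (a : K) (γ : A.ValueGroup), γ ≠ 0 → ∃ b : K, A.valuation (a - b ^ p) ≤ γ) :
    Function.Surjective fun x :
      (Valued.v (R := A.valuation.Completion)).valuationSubring ⧸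
        Ideal.span {(p : (Valued.v (R := A.valuation.Completion)).valuationSubring)} => x ^ p := by
  have : Fact p.Prime := ⟨hp⟩
  have : CharP (WithVal A.valuation) p := by
    exact (RingHom.charP_iff (WithVal.equiv A.valuation).toRingHom (WithVal.equiv A.valuation).injective p).2 inferInstance
  have : CharP A.valuation.Completion p := by
    refine (RingHom.charP_iff (UniformSpace.Completion.coeRingHom : WithVal A.valuation →+* _) ?_ p).1 inferInstance
    exact RingHom.injective _
  obtain ⟨t, ht0, ht1⟩ : ∃ t : K, t ≠ 0 ∧ A.valuation t < 1 := by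
    by_contra hcon
    push Not at hcon
    apply hA
    rw [eq_top_iff]
    intro x _
    by_cases hx : x = 0
    · rw [hx]; exact A.zero_mem
    · rw [← A.valuation_le_one_iff]
      have := hcon x⁻¹ (inv_ne_zero hx)
      rw [map_inv₀] at this
      exact (one_le_inv₀ (by rw [Valuation.pos_iff]; exact hx)).1 this
  have hd : ∀ x : A.valuation.Completion, ∀ s ∈ 𝓝 x, ∃ y : A.valuation.Completion, y ^ p ∈ s := by
    intro x s hs
    rw [Valued.mem_nhds] at hs
    obtain ⟨γ, hγ⟩ := hs
    have hop : {y : A.valuation.Completion | Valued.v.restrict (y - x) < γ.1} ∈ 𝓝 x := by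
      rw [Valued.mem_nhds]; exact ⟨γ, subset_rfl⟩
    obtain ⟨a, ha⟩ : ∃ a : WithVal A.valuation, (a : A.valuation.Completion) ∈ {y : A.valuation.Completion | Valued.v.restrict (y - x) < γ.1} := by
      obtain ⟨_, h1, a, rfl⟩ := mem_closure_iff_nhds.1 (UniformSpace.Completion.denseRange_coe x) _ hop
      exact ⟨a, h1⟩
    set g := MonoidWithZeroHom.ValueGroup₀.embedding γ.1 with hg
    have hg0 : g ≠ 0 := by
      rw [hg]; simp
    obtain ⟨b, hb⟩ := h (WithVal.equiv A.valuation a) (g * A.valuation t) (mul_ne_zero hg0 (by simpa using ht0))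
    refine ⟨(((WithVal.equiv A.valuation).symm b : WithVal A.valuation) : A.valuation.Completion), hγ ?_⟩
    set b' : WithVal A.valuation := (WithVal.equiv A.valuation).symm b with hb'
    have h1 : Valued.v.restrict ((b' : A.valuation.Completion) ^ p - (a : A.valuation.Completion)) < γ.1 := by
      rw [Valuation.restrict_lt_iff_lt_embedding]
      have h2 : ((b' : A.valuation.Completion) ^ p - (a : A.valuation.Completion)) = ((b' ^ p - a : WithVal A.valuation) : A.valuation.Completion) := by
        rw [UniformSpace.Completion.coe_sub]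
        congr 1
        exact (map_pow (UniformSpace.Completion.coeRingHom : WithVal A.valuation →+* A.valuation.Completion) b' p).symm
      rw [h2, Valued.valuedCompletion_apply]
      have h3 : Valued.v (b' ^ p - a) = A.valuation (WithVal.equiv A.valuation a - b ^ p) := by
        rw [← neg_sub, Valuation.map_neg]
        rfl
      rw [h3]
      refine lt_of_le_of_lt hb ?_
      calc g * A.valuation t < g * 1 := mul_lt_mul_of_pos_left ht1 (zero_lt_iff.2 hg0)
        _ = g := mul_one _
    have h4 : ((b' : A.valuation.Completion) ^ p - x) = ((b' : A.valuation.Completion) ^ p - (a : A.valuation.Completion)) + ((a : A.valuation.Completion) - x) := by ring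
    show Valued.v.restrict ((b' : A.valuation.Completion) ^ p - x) < γ.1
    rw [h4]
    exact lt_of_le_of_lt (Valuation.map_add _ _ _) (max_lt h1 ha)
  intro x
  obtain ⟨x, rfl⟩ := Ideal.Quotient.mk_surjective x
  obtain ⟨y, hy⟩ := perfect_of_dense' p hp hd (x : A.valuation.Completion)
  have hy1 : y ∈ (Valued.v (R := A.valuation.Completion)).valuationSubring := by
    rw [Valuation.mem_valuationSubring_iff]
    have h1 : Valued.v (y ^ p) ≤ 1 := by
      rw [hy]; exact x.2
    rw [map_pow] at h1
    exact (pow_le_one_iff hp.ne_zero).1 h1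
  refine ⟨Ideal.Quotient.mk _ ⟨y, hy1⟩, ?_⟩
  show (Ideal.Quotient.mk _ ⟨y, hy1⟩) ^ p = Ideal.Quotient.mk _ x
  rw [← map_pow]
  congr 1
  apply Subtype.ext
  exact hy

end Pool.Agent.Helper975.RDR.R1
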