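import Mathlib
import Pool.Agent.Helper975.RDR.Defs

set_option autoImplicit false

universe u

namespace Pool.Agent.Helper975.RDR.R2


theorem finrank_top_subring (F : Type u) [Field F] (S : Subring F) (hS : S = ⊤) :
    Module.finrank S F = 1 := by
  subst hS
  let e : (⊤ : Subring F) ≃ₗ[(⊤ : Subring F)] F :=
    { toFun := fun x => x.1
      invFun := fun x => ⟨x, trivial⟩
      map_add' := fun _ _ => rfl
      map_smul' := fun _ _ => rfl
      left_inv := fun _ => rfl
      right_inv := fun _ => rfl }
  rw [← e.finrank_eq, Module.finrank_self]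

theorem approx_val_eq {K L : Type u} [Field K] [Field L] [Algebra K L] (B : ValuationSubring L)
    (f : L) (l : K) (h : B.valuation (f - algebraMap K L l) < B.valuation f) :
    B.valuation (algebraMap K L l) = B.valuation f := by
  apply Valuation.map_eq_of_sub_lt
  rwa [Valuation.map_sub_swap]

/-- TARGET R2. An extension of prime degree all whose nonzero elements are approximated by elements of the base
field has nontrivial defect. -/
theorem defect_gt_one {K L : Type u} [Field K] [Field L] [Algebra K L] (B : ValuationSubring L)
    (p : ℕ) (hp : p.Prime) (hn : Module.finrank K L = p)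
    (hI : ∀ f : L, f ≠ 0 → ∃ l : K, B.valuation (f - algebraMap K L l) < B.valuation f) :
    1 < defect K B := by
  have h1 : baseValues K B = ⊤ := by
    rw [eq_top_iff]
    intro γ _
    obtain ⟨f, hf⟩ := B.valuation_surjective (γ : B.ValueGroup)
    have hf0 : f ≠ 0 := by
      rintro rfl
      rw [map_zero] at hf
      exact γ.ne_zero hf.symm
    obtain ⟨l, hl⟩ := hI f hf0
    have hlv := approx_val_eq B f l hl
    have hl0 : l ≠ 0 := by
      rintro rfl
      rw [map_zero, map_zero, hf] at hlv
      exact γ.ne_zero hlv.symm
    refine ⟨Units.mk0 l hl0, ?_⟩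
    ext
    change B.valuation (algebraMap K L l) = (γ : B.ValueGroup)
    rw [hlv, hf]
  have h2 : baseResidues K B = ⊤ := by
    rw [eq_top_iff]
    intro x _
    obtain ⟨f, rfl⟩ := IsLocalRing.residue_surjective x
    by_cases hv : B.valuation (f : L) < 1
    · have : IsLocalRing.residue B f = 0 := by
        rw [IsLocalRing.residue_eq_zero_iff]
        exact (B.valuation_lt_one_iff f).2 hv
      rw [this]
      exact Subring.zero_mem _
    · have hv1 : B.valuation (f : L) = 1 :=
        le_antisymm ((B.valuation_le_one f)) (not_lt.1 hv)
      have hf0 : (f : L) ≠ 0 := by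
        intro h
        rw [h, map_zero] at hv1
        exact zero_ne_one hv1
      obtain ⟨l, hl⟩ := hI f hf0
      have hlv := approx_val_eq B f l hl
      have hmem : algebraMap K L l ∈ B := by
        rw [← B.valuation_le_one_iff, hlv, hv1]
      refine ⟨⟨algebraMap K L l, hmem⟩, ?_, ?_⟩
      · exact ⟨l, rfl⟩
      · have : IsLocalRing.residue B (f - ⟨algebraMap K L l, hmem⟩) = 0 := by
          rw [IsLocalRing.residue_eq_zero_iff]
          refine (B.valuation_lt_one_iff _).2 ?_
          have : ((f - ⟨algebraMap K L l, hmem⟩ : B) : L) = (f : L) - algebraMap K L l := rfl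
          rw [this, ← hv1]
          exact hl
        rw [map_sub, sub_eq_zero] at this
        exact this.symm
  rw [defect, degreeOver, h1, Subgroup.index_top, finrank_top_subring _ _ h2, hn]
  simpa using hp.one_lt

end Pool.Agent.Helper975.RDR.R2
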