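import Mathlib
import Pool.Agent.Helper975.RDR.Defs

set_option autoImplicit false

universe u

namespace Pool.Agent.Helper975.RDR.R4


theorem r4_char {K : Type u} [Field K] (A : ValuationSubring K) (p : ℕ)
    (hp : p.Prime) (hres : A.valuation (p : K) < 1) : CharZero K ∨ CharP K p := by
  obtain ⟨q, hq⟩ := CharP.exists K
  rcases CharP.char_is_prime_or_zero K q with hqp | hq0
  · right
    by_contra hne
    have hpq : p ≠ q := by
      rintro rfl
      exact hne hq
    have hcop : Nat.Coprime p q := (Nat.coprime_primes hp hqp).2 hpq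
    have hbez : (1 : ℤ) = p * Nat.gcdA p q + q * Nat.gcdB p q := by
      have := Nat.gcd_eq_gcd_ab p q
      rw [hcop] at this
      exact_mod_cast this
    have hK : (1 : K) = (p : K) * (Nat.gcdA p q : K) := by
      have h := congrArg (Int.cast : ℤ → K) hbez
      push_cast at h
      rw [CharP.cast_eq_zero K q, zero_mul, add_zero] at h
      exact h
    have h1 : A.valuation (1 : K) < 1 := by
      rw [hK, map_mul]
      have hle : A.valuation ((Nat.gcdA p q : ℤ) : K) ≤ 1 :=
        (A.valuation_le_one_iff _).2 (intCast_mem A _)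
      calc A.valuation (p : K) * A.valuation ((Nat.gcdA p q : ℤ) : K)
          ≤ A.valuation (p : K) * 1 := mul_le_mul_right hle _
        _ < 1 := by rwa [mul_one]
    rw [map_one] at h1
    exact lt_irrefl _ h1
  · left
    subst hq0
    exact CharP.charP_to_charZero K

/-- TARGET R4. Consequence of the failure of being roughly deeply ramified. -/
theorem start_data {K : Type u} [Field K] (A : ValuationSubring K) (hA : A ≠ ⊤) (p : ℕ)
    (hp : p.Prime) (hres : A.valuation (p : K) < 1) (hnot : ¬ (DRvr A p ∧ DRvp A p))
    (hcomp : ∀ [CharP K p], (∀ (a : K) (γ : A.ValueGroup), γ ≠ 0 →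
      ∃ b : K, A.valuation (a - b ^ p) ≤ γ) → Function.Surjective fun x :
      (Valued.v (R := A.valuation.Completion)).valuationSubring ⧸
        Ideal.span {(p : (Valued.v (R := A.valuation.Completion)).valuationSubring)} => x ^ p) :
    (∃ a e : K, A.valuation a ≤ 1 ∧ e ≠ 0 ∧ A.valuation e < 1 ∧
      A.valuation (p : K) ≤ A.valuation e ^ p ∧ ∀ b : K, A.valuation e ^ p < A.valuation (a - b ^ p)) ∨
    (CharZero K ∧ ∀ b : K, A.valuation b ^ p ≠ A.valuation (p : K)) := by
  classical
  have hp2 := hp.two_le
  rcases r4_char A p hp hres with hchar | hchar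
  · -- characteristic zero
    by_cases hb : ∀ b : K, A.valuation b ^ p ≠ A.valuation (p : K)
    · exact Or.inr ⟨hchar, hb⟩
    · left
      push Not at hb
      obtain ⟨g, hg⟩ := hb
      have hp0 : (p : K) ≠ 0 := Nat.cast_ne_zero.2 hp.ne_zero
      have hvp0 : A.valuation (p : K) ≠ 0 := (map_ne_zero _).2 hp0
      have hg0 : g ≠ 0 := by
        rintro rfl
        rw [map_zero, zero_pow hp.ne_zero] at hg
        exact hvp0 hg.symm
      have hvg0 : 0 < A.valuation g := zero_lt_iff.2 ((map_ne_zero _).2 hg0)
      have hvg1 : A.valuation g < 1 := by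
        by_contra h
        push Not at h
        have := one_le_pow_of_one_le' h p
        rw [hg] at this
        exact absurd hres (not_lt.2 this)
      have hlt : A.valuation (p : K) < A.valuation g := by
        rw [← hg]
        calc A.valuation g ^ p < A.valuation g ^ 1 :=
              pow_lt_pow_right_of_lt_one₀ hvg0 hvg1 (by omega)
          _ = A.valuation g := pow_one _
      have hDRvp : DRvp A p := by
        intro h
        exact absurd (h.2 ⟨hvg0.ne', hvg1⟩) (not_le.2 hlt)
      have hDRvr : ¬ DRvr A p := fun h => hnot ⟨h, hDRvp⟩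
      have hncp : ¬ CharP K p := by
        intro h
        exact hp0 (CharP.cast_eq_zero K p)
      have hns : ¬ Function.Surjective fun x : A ⧸ Ideal.span {(p : A)} => x ^ p := by
        intro h
        exact hDRvr ⟨fun _ => h, fun h' => absurd h' hncp⟩
      rw [Function.Surjective] at hns
      push Not at hns
      obtain ⟨y, hy⟩ := hns
      obtain ⟨a, rfl⟩ := Ideal.Quotient.mk_surjective y
      refine ⟨(a : K), g, (A.valuation_le_one_iff _).2 a.2, hg0, hvg1, hg.ge, ?_⟩
      intro b
      rw [hg]
      by_cases hbA : b ∈ A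
      · by_contra hle
        push Not at hle
        apply hy (Ideal.Quotient.mk _ ⟨b, hbA⟩)
        show (Ideal.Quotient.mk _ (⟨b, hbA⟩ : A)) ^ p = _
        rw [← map_pow, Ideal.Quotient.eq, Ideal.mem_span_singleton]
        have hc : ((a : K) - b ^ p) / p ∈ A := by
          rw [← A.valuation_le_one_iff, map_div₀]
          exact div_le_one_of_le₀ hle zero_le
        refine ⟨-⟨_, hc⟩, ?_⟩
        apply Subtype.ext
        push_cast
        field_simp
        ring
      · have hvb : 1 < A.valuation b := by
          rw [← not_le, A.valuation_le_one_iff]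
          exact hbA
        have hvbp : 1 < A.valuation (b ^ p) := by
          rw [map_pow]
          exact one_lt_pow₀ hvb hp.ne_zero
        have hva : A.valuation (a : K) ≤ 1 := (A.valuation_le_one_iff _).2 a.2
        have : A.valuation ((a : K) - b ^ p) = A.valuation (b ^ p) := by
          exact Valuation.map_sub_eq_of_lt_right _ (hva.trans_lt hvbp)
        rw [this]
        exact hres.trans hvbp
  · -- characteristic p
    left
    have hp0 : (p : K) = 0 := CharP.cast_eq_zero K p
    have hDRvp : DRvp A p := by
      intro h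
      apply h.1.1
      rw [hp0, map_zero]
    have hDRvr : ¬ DRvr A p := fun h => hnot ⟨h, hDRvp⟩
    have hnc0 : ¬ CharZero K := by
      intro h
      exact hp.ne_zero (Nat.cast_eq_zero.1 hp0)
    have hna : ¬ (∀ (a : K) (γ : A.ValueGroup), γ ≠ 0 → ∃ b : K, A.valuation (a - b ^ p) ≤ γ) := by
      intro h
      exact hDRvr ⟨fun h' => absurd h' hnc0, fun _ => hcomp h⟩
    push Not at hna
    obtain ⟨a, γ, hγ, hab⟩ := hna
    obtain ⟨w, rfl⟩ := A.valuation_surjective γ
    have hw : w ≠ 0 := by
      rintro rfl
      exact hγ (map_zero _)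
    obtain ⟨u, hu0, hua⟩ : ∃ u : K, u ≠ 0 ∧ A.valuation (u ^ p * a) ≤ 1 := by
      by_cases ha : A.valuation a ≤ 1
      · exact ⟨1, one_ne_zero, by simpa using ha⟩
      · push Not at ha
        have ha0 : a ≠ 0 := by
          rintro rfl
          rw [map_zero] at ha
          exact not_lt_zero ha
        refine ⟨a⁻¹, inv_ne_zero ha0, ?_⟩
        have e : a⁻¹ ^ p * a = a⁻¹ ^ (p - 1) := by
          have : p = (p - 1) + 1 := by omega
          conv_lhs => rw [this]
          rw [pow_succ, mul_assoc, inv_mul_cancel₀ ha0, mul_one]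
        rw [e, map_pow, map_inv₀]
        exact pow_le_one' (inv_le_one_of_one_le₀ ha.le) _
    have hab' : ∀ b : K, A.valuation (u ^ p * w) < A.valuation (u ^ p * a - b ^ p) := by
      intro b
      have e : u ^ p * a - b ^ p = u ^ p * (a - (b / u) ^ p) := by
        rw [div_pow, mul_sub, mul_div_cancel₀ _ (pow_ne_zero p hu0)]
      rw [e, map_mul, map_mul]
      exact mul_lt_mul_of_pos_left (hab (b / u)) (zero_lt_iff.2 ((map_ne_zero _).2 (pow_ne_zero _ hu0)))
    obtain ⟨t, ht0, ht1⟩ : ∃ t : K, t ≠ 0 ∧ A.valuation t < 1 := by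
      have : ∃ x : K, x ∉ A := by
        by_contra h
        push Not at h
        apply hA
        ext x
        simp [h x]
      obtain ⟨x, hx⟩ := this
      have hvx : 1 < A.valuation x := by
        rw [← not_le, A.valuation_le_one_iff]
        exact hx
      have hx0 : x ≠ 0 := by
        rintro rfl
        exact hx (zero_mem A)
      refine ⟨x⁻¹, inv_ne_zero hx0, ?_⟩
      rw [map_inv₀]
      exact inv_lt_one_of_one_lt₀ hvx
    have huw : u ^ p * w ≠ 0 := mul_ne_zero (pow_ne_zero _ hu0) hw
    have hfin : ∀ e : K, e ≠ 0 → A.valuation e < 1 → A.valuation e ≤ A.valuation (u ^ p * w) →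
        (∃ a e : K, A.valuation a ≤ 1 ∧ e ≠ 0 ∧ A.valuation e < 1 ∧
        A.valuation (p : K) ≤ A.valuation e ^ p ∧
          ∀ b : K, A.valuation e ^ p < A.valuation (a - b ^ p)) := by
      intro e he0 he1 hew
      refine ⟨u ^ p * a, e, hua, he0, he1, ?_, ?_⟩
      · rw [hp0, map_zero]; exact zero_le
      · intro b
        have h1 : A.valuation e ^ p ≤ A.valuation e :=
          pow_le_of_le_one zero_le he1.le hp.ne_zero
        exact (h1.trans hew).trans_lt (hab' b)
    by_cases hc : A.valuation (u ^ p * w) ≤ 1
    · apply hfin (t * (u ^ p * w)) (mul_ne_zero ht0 huw)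
      · rw [map_mul]
        exact mul_lt_one_of_lt_of_le ht1 hc
      · rw [map_mul]
        exact mul_le_of_le_one_left' ht1.le
    · push Not at hc
      exact hfin t ht0 ht1 (ht1.le.trans hc.le)

end Pool.Agent.Helper975.RDR.R4
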