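import Mathlib
import Pool.Agent.Helper975.RDR.Defs
import Pool.Agent.Helper975.RDR.Core5
import Pool.Agent.Helper975.RDR.Core6
import Pool.Agent.Helper975.RDR.JobR1
import Pool.Agent.Helper975.RDR.JobR2
import Pool.Agent.Helper975.RDR.JobR4

set_option autoImplicit false

universe u

namespace Pool.Agent.Helper975.RDR

open Polynomial

section norm

variable {K Ω Γ : Type*} [Field K] [Field Ω] [Algebra K Ω] [IsAlgClosed Ω]
  [Algebra.IsAlgebraic K Ω] [LinearOrderedCommGroupWithZero Γ] (v : Valuation Ω Γ)

theorem norm_val (hv : ∀ (σ : Ω ≃ₐ[K] Ω) (x : Ω), v (σ x) = v x) (L : IntermediateField K Ω)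
    (z : Ω) : ∃ c ∈ L, v c = v z ^ (minpoly L z).natDegree := by
  have hint : IsIntegral L z := Algebra.IsIntegral.isIntegral z
  refine ⟨((minpoly L z).coeff 0 : L), ((minpoly L z).coeff 0).2, ?_⟩
  have h1 : aeval (0 : Ω) (minpoly L z) = (((minpoly L z).coeff 0 : L) : Ω) := by
    rw [← coeff_zero_eq_aeval_zero']; rfl
  rw [← h1, aeval_prod, (minpoly.monic hint).leadingCoeff]
  have h2 : ((1 : L) : Ω) = 1 := rfl
  rw [h2, one_mul, map_multiset_prod, Multiset.map_map]
  have hcard : ((minpoly L z).aroots Ω).card = (minpoly L z).natDegree := by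
    rw [aroots_def, ← natDegree_map (algebraMap L Ω)]
    exact ((IsAlgClosed.splits ((minpoly L z).map (algebraMap L Ω))).natDegree_eq_card_roots).symm
  rw [← hcard, ← Multiset.prod_replicate, ← Multiset.map_const']
  congr 1
  apply Multiset.map_congr rfl
  intro z' hz'
  obtain ⟨σ, hσ⟩ := exists_conj L hz'
  simp only [Function.comp, zero_sub, Valuation.map_neg]
  rw [← hσ]
  exact conj_val v hv L σ z

/-- start of the construction when `v p` is not divisible by `p` in the value group -/
theorem start_two (hv : ∀ (σ : Ω ≃ₐ[K] Ω) (x : Ω), v (σ x) = v x) {p : ℕ} (hp : p.Prime)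
    (hvp : v (p : Ω) < 1) (hp0 : (p : Ω) ≠ 0)
    (h : ∀ b : K, v (algebraMap K Ω b) ^ p ≠ v (p : Ω)) :
    ∃ (a e : Ω) (L : IntermediateField K Ω), Bad v p a e L := by
  obtain ⟨w, hw⟩ := IsAlgClosed.exists_pow_nat_eq (p : Ω) hp.pos
  have hwp : v w ^ p = v (p : Ω) := by rw [← map_pow, hw]
  have hw0 : w ≠ 0 := by
    rintro rfl
    rw [zero_pow hp.ne_zero] at hw
    exact hp0 hw.symm
  have hvw : 0 < v w := (v.pos_iff).2 hw0
  have hw1 : v w < 1 := by
    have h1 : v w ^ p < 1 ^ p := by rw [hwp, one_pow]; exact hvp
    exact (pow_lt_pow_iff' hp.ne_zero).1 h1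
  -- values of elements of `⊥`
  have hbot : ∀ c ∈ (⊥ : IntermediateField K Ω), ∃ k : K, algebraMap K Ω k = c := by
    intro c hc
    exact IntermediateField.mem_bot.1 hc
  have hdeg : (minpoly (⊥ : IntermediateField K Ω) w).natDegree ≤ p := by
    have hroot : aeval w (X ^ p - C (p : (⊥ : IntermediateField K Ω))) = 0 := by
      rw [map_sub, map_pow, aeval_X, aeval_C, hw, map_natCast, sub_self]
    have h1 := natDegree_le_of_dvd (minpoly.dvd _ w hroot)
      (monic_X_pow_sub_C _ hp.ne_zero).ne_zero
    rwa [natDegree_X_pow_sub_C] at h1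
  refine ⟨w, w, ext1 ⊥ w, ⟨self_mem_ext1 _ w, hw1.le, self_mem_ext1 _ w, hw0, hw1, hwp.ge, ?_⟩⟩
  intro b hb
  have hne : v b ^ p ≠ v w := by
    intro hbw
    have hn := (degree_ext1 ⊥ w b hb).trans hdeg
    obtain ⟨c, hc, hcv⟩ := norm_val v hv ⊥ b
    obtain ⟨k, rfl⟩ := hbot c hc
    set n := (minpoly (⊥ : IntermediateField K Ω) b).natDegree with hndef
    have hn0 : 0 < n := minpoly.natDegree_pos (Algebra.IsIntegral.isIntegral b)
    rcases eq_or_lt_of_le hn with h1 | h1
    · -- `n = p`
      rw [h1, hbw] at hcv
      apply h k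
      rw [hcv, hwp]
    · -- `n < p`
      have hcop : IsCoprime (n : ℤ) ((p ^ 2 : ℕ) : ℤ) := by
        apply Nat.isCoprime_iff_coprime.2
        apply Nat.Coprime.pow_right
        exact Nat.Coprime.symm ((Nat.Prime.coprime_iff_not_dvd hp).2
          (fun hd => absurd (Nat.le_of_dvd hn0 hd) (by omega)))
      obtain ⟨s, t, hst⟩ := hcop
      have hb0 : v b ≠ 0 := by
        intro h0
        rw [h0, zero_pow hp.ne_zero] at hbw
        exact hvw.ne hbw
      have hb2 : v b ^ (p ^ 2) = v (p : Ω) := by
        rw [pow_two, pow_mul, hbw, hwp]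
      have hb3 : v b = v (algebraMap K Ω (k ^ s * (p : K) ^ t)) := by
        rw [map_mul, map_mul, map_zpow₀, map_zpow₀, map_zpow₀, map_zpow₀, map_natCast, hcv, ← hb2,
          ← zpow_natCast, ← zpow_natCast, ← zpow_mul, ← zpow_mul, ← zpow_add₀ hb0]
        have : (n : ℤ) * s + ((p ^ 2 : ℕ) : ℤ) * t = 1 := by linarith
        rw [this, zpow_one]
      apply h ((k ^ s * (p : K) ^ t) ^ p)
      rw [map_pow, map_pow, ← hb3, hbw, hwp]
  have hwlt : v w ^ p < v w := by
    calc v w ^ p = v w ^ (p - 1) * v w := by
          rw [← pow_succ, Nat.sub_add_cancel hp.one_lt.le]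
      _ < 1 * v w := by
          apply mul_lt_mul_of_pos_right _ hvw
          exact pow_lt_one' hw1 (by have := hp.one_lt; omega)
      _ = v w := one_mul _
  rcases lt_or_gt_of_ne hne with h1 | h1
  · rw [v.map_sub_eq_of_lt_left (by rwa [map_pow])]
    exact hwlt
  · rw [v.map_sub_eq_of_lt_right (by rwa [map_pow]), map_pow]
    exact hwlt.trans h1

end norm

theorem galois_of {K Ω : Type*} [Field K] [Field Ω] [Algebra K Ω] [IsAlgClosed Ω]
    [Algebra.IsAlgebraic K Ω] (L : IntermediateField K Ω) {η : Ω} {F : L[X]} (hFη : aeval η F = 0)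
    (hsep : F.Separable)
    (hr : ∀ η' : Ω, aeval η' F = 0 → η' ∈ IntermediateField.adjoin L {η}) :
    IsGalois L (IntermediateField.adjoin L {η}) := by
  have : Algebra.IsAlgebraic L Ω := Algebra.IsAlgebraic.tower_top (K := K) L
  have : IsAlgClosure L Ω := ⟨inferInstance, this⟩
  have hNorm : Normal L Ω := IsAlgClosure.normal L Ω
  have hs : IsSeparable L η := by
    exact hsep.of_dvd (minpoly.dvd L η hFη)
  have h1 : Algebra.IsSeparable L (IntermediateField.adjoin L {η}) :=
    (IntermediateField.isSeparable_adjoin_simple_iff_isSeparable L Ω).2 hs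
  have h2 : Normal L (IntermediateField.adjoin L {η}) := by
    rw [IntermediateField.normal_iff_forall_map_le]
    intro σ
    rw [IntermediateField.adjoin_map, IntermediateField.adjoin_le_iff]
    rintro _ ⟨x, hx, rfl⟩
    rw [Set.mem_singleton_iff] at hx
    subst hx
    apply hr
    have : aeval (σ x) F = σ (aeval x F) := aeval_algHom_apply σ x F
    change aeval (σ x) F = 0
    rw [this, hFη, map_zero]
  exact ⟨⟩

/-- the statement of Q1 -/
def Q1 : Prop :=
  ∀ (K : Type u) [Field K] (A : ValuationSubring K), A ≠ ⊤ → IsHenselianField A →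
    (∀ (L : Type u) [Field L] [Algebra K L] [Algebra.IsAlgebraic K L] (B : ValuationSubring L),
      B.comap (algebraMap K L) = A → IsIndependentDefectField B) →
    IsRoughlyDeeplyRamified A

theorem Q1_true : Q1.{u} := by
  intro K _ A hA hens hall p hp hres
  by_contra hnot
  have hresv : A.valuation (p : K) < 1 := (R3.charP_residue_iff A p hp).1 hres
  have hstart := R4.start_data A hA p hp hresv hnot (fun h => R1.drvr_of_dense A hA p hp h)
  obtain ⟨Ab, hAb, -⟩ := hens (AlgebraicClosure K)
  have hv : ∀ (σ : AlgebraicClosure K ≃ₐ[K] AlgebraicClosure K) (x : AlgebraicClosure K),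
      Ab.valuation (σ x) = Ab.valuation x := fun σ x =>
    R3.conj_invariant A hens (AlgebraicClosure K) Ab hAb σ x
  have hlt : ∀ x y : K, A.valuation x < A.valuation y ↔
      Ab.valuation (algebraMap K (AlgebraicClosure K) x) <
        Ab.valuation (algebraMap K (AlgebraicClosure K) y) := by
    intro x y; subst hAb; exact comap_val_lt Ab _ x y
  have hle : ∀ x y : K, A.valuation x ≤ A.valuation y ↔
      Ab.valuation (algebraMap K (AlgebraicClosure K) x) ≤
        Ab.valuation (algebraMap K (AlgebraicClosure K) y) := by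
    intro x y; subst hAb; exact comap_val_le Ab _ x y
  have hvp : Ab.valuation (p : AlgebraicClosure K) < 1 := by
    have h1 := (hlt (p : K) 1).1 (by rw [map_one]; exact hresv)
    rwa [map_natCast, map_one, map_one] at h1
  -- characteristic
  have hchar : CharZero K ∨ CharP K p := by
    exact R4.r4_char A p hp hresv
  -- bad data
  have hBad : ∃ (a e : AlgebraicClosure K) (L : IntermediateField K (AlgebraicClosure K)),
      Bad Ab.valuation p a e L := by
    rcases hstart with ⟨a, e, ha1, he0, he1, hpe, hbad⟩ | ⟨h0, hb⟩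
    · refine ⟨algebraMap K _ a, algebraMap K _ e, ⊥, ⟨IntermediateField.algebraMap_mem _ a, ?_,
        IntermediateField.algebraMap_mem _ e, ?_, ?_, ?_, ?_⟩⟩
      · have h1 := (hle a 1).1 (by rw [map_one]; exact ha1)
        rwa [map_one, map_one] at h1
      · exact (_root_.map_ne_zero _).2 he0
      · have h1 := (hlt e 1).1 (by rw [map_one]; exact he1)
        rwa [map_one, map_one] at h1
      · have h1 := (hle (p : K) (e ^ p)).1 (by rw [map_pow]; exact hpe)
        rwa [map_natCast, map_pow, map_pow] at h1
      · intro b hb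
        obtain ⟨k, rfl⟩ := IntermediateField.mem_bot.1 hb
        have h1 := (hlt (e ^ p) (a - k ^ p)).1 (by rw [map_pow]; exact hbad k)
        rwa [map_pow, map_pow, map_sub, map_pow] at h1
    · refine start_two Ab.valuation hv hp hvp ?_ ?_
      · have : CharZero (AlgebraicClosure K) :=
          charZero_of_injective_algebraMap (algebraMap K (AlgebraicClosure K)).injective
        exact_mod_cast hp.ne_zero
      · intro b hb2
        apply hb b
        apply le_antisymm
        · rw [← map_pow, hle, map_pow, map_pow, map_natCast]; exact hb2.le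
        · rw [← map_pow, hle, map_pow, map_pow, map_natCast]; exact hb2.ge
  obtain ⟨a, e, L0, hB0⟩ := hBad
  obtain ⟨L, -, hB, hSmall, hn⟩ := exists_maximal_bad Ab.valuation hv hp hB0
  have hGood : GoodEta Ab.valuation p L := by
    rcases hchar with h0 | h0
    · have : CharZero (AlgebraicClosure K) :=
        charZero_of_injective_algebraMap (algebraMap K (AlgebraicClosure K)).injective
      exact kummer_eta Ab.valuation hp hSmall hB hn
    · have : CharP (AlgebraicClosure K) p := charP_of_injective_algebraMap
        (algebraMap K (AlgebraicClosure K)).injective p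
      exact as_eta Ab.valuation hp hSmall hB hn
  obtain ⟨η, F, hF, hFd, hFη, hNM, hsep, hroots, hσ⟩ := hGood
  have hGal := galois_of L hFη hsep hroots
  have hfin : Module.finrank L (IntermediateField.adjoin L {η}) = p := by
    have hint : IsIntegral L η := ⟨F, hF, by rwa [aeval_def] at hFη⟩
    rw [IntermediateField.adjoin.finrank hint]
    exact degree_eta Ab.valuation hSmall hNM hF hFd hFη
  have hLA : (Ab.comap (algebraMap L (AlgebraicClosure K))).comap (algebraMap K L) = A := by
    rw [ValuationSubring.comap_comap]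
    exact hAb
  have hIDF := hall L (Ab.comap (algebraMap L (AlgebraicClosure K))) hLA
  have hcharL : CharP (IsLocalRing.ResidueField (Ab.comap (algebraMap L (AlgebraicClosure K)))) p := by
    rw [R3.charP_residue_iff _ p hp]
    have h1 := (comap_val_lt Ab (algebraMap L (AlgebraicClosure K)) (p : L) 1).2 (by
      rw [map_natCast, map_one, map_one]; exact hvp)
    rwa [map_one] at h1
  have hK' : (CharZero L ∧ IsCyclotomicExtension {p} L L) ∨
      (CharP L p ∧ Function.Bijective (algebraMap L L)) := by
    rcases hchar with h0 | h0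
    · left
      have hcz : CharZero (AlgebraicClosure K) :=
        charZero_of_injective_algebraMap (algebraMap K (AlgebraicClosure K)).injective
      have hczL : CharZero L := charZero_of_injective_algebraMap (algebraMap K L).injective
      refine ⟨hczL, ?_⟩
      have hne : ((p : ℕ) : AlgebraicClosure K) ≠ 0 := by exact_mod_cast hp.ne_zero
      have : NeZero ((p : ℕ) : AlgebraicClosure K) := ⟨hne⟩
      obtain ⟨ζ, hζ⟩ := IsAlgClosed.exists_root (cyclotomic p (AlgebraicClosure K)) (by
        rw [degree_cyclotomic]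
        have : 0 < Nat.totient p := Nat.totient_pos.2 hp.pos
        exact_mod_cast this.ne')
      have hζ' : IsPrimitiveRoot ζ p := isRoot_cyclotomic_iff.1 hζ
      have hζL : ζ ∈ L := by
        have hp1 : p - 1 ≠ 0 := by have := hp.one_lt; omega
        apply small_root hSmall (G := cyclotomic p L) (cyclotomic_ne_zero p L)
        · rw [natDegree_cyclotomic, Nat.totient_prime hp]
          have := hp.pos; omega
        · have h1 : aeval ζ (cyclotomic p L) = eval ζ (cyclotomic p (AlgebraicClosure K)) := by
            rw [← map_cyclotomic p (algebraMap L (AlgebraicClosure K)), eval_map_algebraMap]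
          rw [h1]; exact hζ
      refine ⟨?_, ?_⟩
      · intro n hn _
        rw [Set.mem_singleton_iff] at hn
        subst hn
        refine ⟨⟨ζ, hζL⟩, ?_⟩
        exact (IsPrimitiveRoot.map_iff_of_injective (f := algebraMap L (AlgebraicClosure K))
          (algebraMap L (AlgebraicClosure K)).injective).1 hζ'
      · intro x
        exact (Algebra.adjoin L _).algebraMap_mem x
    · right
      have : CharP L p := charP_of_injective_algebraMap (algebraMap K L).injective p
      exact ⟨this, Function.bijective_id⟩
  have hfinal := hIDF p hp hcharL L hK' (Ab.comap (algebraMap L (AlgebraicClosure K))) rfl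
    (IntermediateField.adjoin L {η}) hfin
    (Ab.comap (algebraMap (IntermediateField.adjoin L {η}) (AlgebraicClosure K))) rfl ?_ ?_
  · exact not_independent Ab hp hSmall hNM hF hFd hFη hσ _ rfl _ rfl hfinal
  · intro C hC
    have i1 : Algebra.IsAlgebraic L (AlgebraicClosure K) :=
      Algebra.IsAlgebraic.tower_top (K := K) L
    have i2 : Algebra.IsAlgebraic L (IntermediateField.adjoin L {η}) := inferInstance
    have i3 : Algebra.IsAlgebraic K (IntermediateField.adjoin L {η}) :=
      Algebra.IsAlgebraic.trans K L (IntermediateField.adjoin L {η})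
    obtain ⟨D, hD, hDu⟩ := hens (IntermediateField.adjoin L {η})
    have h1 : C = D := by
      apply hDu
      have : algebraMap K (IntermediateField.adjoin L {η}) =
          (algebraMap L (IntermediateField.adjoin L {η})).comp (algebraMap K L) := rfl
      rw [this, ← ValuationSubring.comap_comap, hC]
      exact hLA
    have h2 : Ab.comap (algebraMap (IntermediateField.adjoin L {η}) (AlgebraicClosure K)) = D := by
      apply hDu
      rw [ValuationSubring.comap_comap]
      exact hAb
    rw [h1, h2]
  · apply R2.defect_gt_one _ p hp hfin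
    intro f hf
    obtain ⟨g, hg, hgf⟩ := exists_poly hp.pos hF hFd hFη f.2
    have hf0 : aeval η g ≠ 0 := by
      rw [hgf]
      intro h0
      exact hf (Subtype.ext h0)
    obtain ⟨l, hl, hlt'⟩ := approx Ab.valuation hSmall hNM hg hf0
    refine ⟨⟨l, hl⟩, ?_⟩
    rw [comap_val_lt]
    rw [hgf] at hlt'
    exact hlt'

end Pool.Agent.Helper975.RDR
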